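import Pool.Agent.P8H70.TU.Stm
import Pool.Agent.P8H70.TR.Norms

/-!
# Project TU, assembly: simple properties of `N1`
-/

set_option autoImplicit false

open Complex MeasureTheory Polynomial Finset ComplexConjugate

namespace Pool.Agent.P8H70.TU

open Pool.Agent.P8H70.TR

lemma N1_nonneg (n : ℕ) (b : ℕ → ℂ) : 0 ≤ N1 n b := by
  unfold N1
  apply mul_nonneg (by positivity)
  exact intervalIntegral.integral_nonneg (by positivity) fun t _ => norm_nonneg _

lemma tp_congr {n : ℕ} {b c : ℕ → ℂ} (h : ∀ j ≤ n, b j = c j) (t : ℝ) : tp n b t = tp n c t := by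
  unfold tp
  refine Finset.sum_congr rfl fun j hj => ?_
  rw [h j (by have := Finset.mem_range.1 hj; omega)]

lemma N1_congr {n : ℕ} {b c : ℕ → ℂ} (h : ∀ j ≤ n, b j = c j) : N1 n b = N1 n c := by
  unfold N1
  congr 1
  exact intervalIntegral.integral_congr fun t _ => by
    show ‖tp n b t‖ = ‖tp n c t‖
    rw [tp_congr h]

lemma int_norm (n : ℕ) (b : ℕ → ℂ) :
    IntervalIntegrable (fun t => ‖tp n b t‖) volume 0 (2 * Real.pi) :=
  (continuous_tp n b).norm.intervalIntegrable _ _

lemma N1_add (n : ℕ) (b c : ℕ → ℂ) : N1 n (fun j => b j + c j) ≤ N1 n b + N1 n c := by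
  unfold N1
  rw [← mul_add, ← intervalIntegral.integral_add (int_norm n b) (int_norm n c)]
  apply mul_le_mul_of_nonneg_left _ (by positivity)
  apply intervalIntegral.integral_mono_on (by positivity) (int_norm _ _)
    ((int_norm n b).add (int_norm n c))
  intro t _
  have : tp n (fun j => b j + c j) t = tp n b t + tp n c t := by
    unfold tp
    rw [← Finset.sum_add_distrib]
    exact Finset.sum_congr rfl fun j _ => by ring
  rw [this]
  exact norm_add_le _ _

lemma N1_smul (n : ℕ) (z : ℂ) (b : ℕ → ℂ) : N1 n (fun j => z * b j) = ‖z‖ * N1 n b := by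
  unfold N1
  have : ∀ t, ‖tp n (fun j => z * b j) t‖ = ‖z‖ * ‖tp n b t‖ := by
    intro t
    rw [← norm_mul]
    congr 1
    unfold tp
    rw [Finset.mul_sum]
    exact Finset.sum_congr rfl fun j _ => by ring
  rw [intervalIntegral.integral_congr fun t _ => this t, intervalIntegral.integral_const_mul]
  ring

lemma N1_zero (n : ℕ) : N1 n (fun _ => 0) = 0 := by
  have := N1_smul n 0 (fun _ => 0)
  simpa using this

lemma N1_sum {ι : Type} (n : ℕ) (s : Finset ι) (b : ι → ℕ → ℂ) :
    N1 n (fun j => ∑ i ∈ s, b i j) ≤ ∑ i ∈ s, N1 n (b i) := by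
  classical
  induction s using Finset.induction_on with
  | empty => simp [N1_zero]
  | insert i s hi ih =>
    rw [Finset.sum_insert hi]
    have e : (fun j => ∑ x ∈ insert i s, b x j) = fun j => b i j + ∑ x ∈ s, b x j := by
      funext j
      rw [Finset.sum_insert hi]
    rw [e]
    exact (N1_add n _ _).trans (by gcongr)

lemma N1_conj (n : ℕ) (b : ℕ → ℂ) : N1 n (fun j => conj (b j)) = N1 n b := by
  unfold N1
  congr 1
  have h1 : ∀ t, ‖tp n (fun j => conj (b j)) t‖ = ‖tp n b (-t)‖ := by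
    intro t
    rw [← RCLike.norm_conj]
    congr 1
    unfold tp
    rw [map_sum]
    refine Finset.sum_congr rfl fun j _ => ?_
    rw [map_mul, Complex.conj_conj, ← Complex.exp_conj]
    congr 2
    rw [map_mul, Complex.conj_ofReal, Complex.conj_I]
    push_cast
    ring
  rw [intervalIntegral.integral_congr fun t _ => h1 t]
  have h2 := intervalIntegral.integral_comp_neg (a := 0) (b := 2 * Real.pi)
    (fun t => ‖tp n b t‖)
  rw [h2]
  have hper : Function.Periodic (fun t => ‖tp n b t‖) (2 * Real.pi) := by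
    intro t
    show ‖tp n b (t + 2 * Real.pi)‖ = ‖tp n b t‖
    congr 1
    unfold tp
    refine Finset.sum_congr rfl fun j _ => ?_
    congr 1
    have : (((j * (t + 2 * Real.pi) : ℝ)) : ℂ) * I = ((j * t : ℝ) : ℂ) * I +
        (j : ℂ) * (2 * Real.pi * I) := by push_cast; ring
    rw [this, Complex.exp_add, Complex.exp_nat_mul_two_pi_mul_I, mul_one]
  have h3 := hper.intervalIntegral_add_eq (-(2 * Real.pi)) 0
  rw [neg_add_cancel, zero_add] at h3
  rw [neg_zero]
  exact h3

lemma coef_eq (n : ℕ) (b : ℕ → ℂ) (l : ℕ) (hl : l ≤ n) :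
    ∫ t in (0 : ℝ)..(2 * Real.pi), tp n b t * cexp (((-(l : ℝ) * t : ℝ) : ℂ) * I) =
      2 * Real.pi * b l := by
  have e : ∀ t : ℝ, tp n b t * cexp (((-(l : ℝ) * t : ℝ) : ℂ) * I) =
      ∑ j ∈ range (n + 1), b j * cexp ((((j - l : ℤ) * t : ℝ) : ℂ) * I) := by
    intro t
    unfold tp
    rw [Finset.sum_mul]
    refine Finset.sum_congr rfl fun j _ => ?_
    rw [mul_assoc, ← Complex.exp_add]
    congr 2
    push_cast
    ring
  rw [intervalIntegral.integral_congr fun t _ => e t,
    intervalIntegral.integral_finsetSum fun j _ => by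
      apply Continuous.intervalIntegrable; fun_prop]
  have e3 : ∀ j ∈ range (n + 1), ∫ t in (0 : ℝ)..(2 * Real.pi),
      b j * cexp ((((j - l : ℤ) * t : ℝ) : ℂ) * I) =
      if j = l then b j * ((2 * Real.pi : ℝ) : ℂ) else 0 := by
    intro j _
    rw [intervalIntegral.integral_const_mul, int_exp]
    by_cases h : j = l
    · subst h; simp
    · rw [if_neg h, if_neg (by omega), mul_zero]
  rw [Finset.sum_congr rfl e3, Finset.sum_ite_eq' (range (n + 1)) l,
    if_pos (Finset.mem_range.2 (by omega))]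
  push_cast
  ring

lemma coef_le (n : ℕ) (b : ℕ → ℂ) (l : ℕ) (hl : l ≤ n) : ‖b l‖ ≤ N1 n b := by
  have h := coef_eq n b l hl
  have hpi : 0 < 2 * Real.pi := by positivity
  have h1 : ‖∫ t in (0 : ℝ)..(2 * Real.pi), tp n b t * cexp (((-(l : ℝ) * t : ℝ) : ℂ) * I)‖ ≤
      ∫ t in (0 : ℝ)..(2 * Real.pi), ‖tp n b t‖ := by
    refine (intervalIntegral.norm_integral_le_integral_norm hpi.le).trans (le_of_eq ?_)
    refine intervalIntegral.integral_congr fun t _ => ?_
    show ‖tp n b t * cexp (((-(l : ℝ) * t : ℝ) : ℂ) * I)‖ = ‖tp n b t‖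
    rw [norm_mul, Complex.norm_exp_ofReal_mul_I, mul_one]
  rw [h, norm_mul] at h1
  have h2 : ‖(2 * Real.pi : ℂ)‖ = 2 * Real.pi := by
    rw [norm_mul, Complex.norm_real, Real.norm_eq_abs, abs_of_pos Real.pi_pos]
    simp
  rw [h2] at h1
  unfold N1
  rw [inv_mul_eq_div, le_div_iff₀ hpi]
  linarith

lemma N1_le_sqrt (n : ℕ) (b : ℕ → ℂ) (ε : ℝ) (hε : 0 ≤ ε) (h : ∀ j ≤ n, ‖b j‖ ≤ ε) :
    N1 n b ≤ Real.sqrt ((n : ℝ) + 1) * ε := by
  have hpi : 0 < 2 * Real.pi := by positivity
  have hn : (0 : ℝ) < (n : ℝ) + 1 := by positivity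
  have hs : 0 < Real.sqrt ((n : ℝ) + 1) := Real.sqrt_pos.2 hn
  rcases hε.eq_or_lt with h0 | hpos
  · have : N1 n b = N1 n (fun _ => 0) := N1_congr fun j hj => by
      have := h j hj
      rw [← h0] at this
      simpa using this
    rw [this, N1_zero, ← h0, mul_zero]
  · set A : ℝ := Real.sqrt ((n : ℝ) + 1) * ε with hA
    have hA0 : 0 < A := by positivity
    have hA2 : A ^ 2 = ((n : ℝ) + 1) * ε ^ 2 := by
      rw [hA, mul_pow, Real.sq_sqrt hn.le]
    have q := parseval n b
    have hsum : ∑ j ∈ range (n + 1), ‖b j‖ ^ 2 ≤ A ^ 2 := by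
      rw [hA2]
      calc ∑ j ∈ range (n + 1), ‖b j‖ ^ 2 ≤ ∑ j ∈ range (n + 1), ε ^ 2 := by
            refine Finset.sum_le_sum fun j hj => ?_
            exact pow_le_pow_left₀ (norm_nonneg _)
              (h j (by have := Finset.mem_range.1 hj; omega)) 2
        _ = ((n : ℝ) + 1) * ε ^ 2 := by simp
    have key : ∫ t in (0 : ℝ)..(2 * Real.pi), ‖tp n b t‖ ≤ 2 * Real.pi * A := by
      calc ∫ t in (0 : ℝ)..(2 * Real.pi), ‖tp n b t‖
          ≤ ∫ t in (0 : ℝ)..(2 * Real.pi), (A / 2 + (1 / (2 * A)) * ‖tp n b t‖ ^ 2) := by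
            apply intervalIntegral.integral_mono_on hpi.le (int_norm n b)
            · apply Continuous.intervalIntegrable
              exact continuous_const.add
                (continuous_const.mul ((continuous_tp n b).norm.pow 2))
            · intro t _
              have h1 : 0 ≤ (‖tp n b t‖ - A) ^ 2 := sq_nonneg _
              have h2 : A / 2 + (1 / (2 * A)) * ‖tp n b t‖ ^ 2 - ‖tp n b t‖ =
                  (‖tp n b t‖ - A) ^ 2 / (2 * A) := by
                field_simp
                ring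
              have h3 : 0 ≤ (‖tp n b t‖ - A) ^ 2 / (2 * A) := by positivity
              linarith
        _ = 2 * Real.pi * (A / 2) + (1 / (2 * A)) * (2 * Real.pi *
              ∑ j ∈ range (n + 1), ‖b j‖ ^ 2) := by
            rw [intervalIntegral.integral_add (by simp) (by
              apply Continuous.intervalIntegrable
              exact continuous_const.mul ((continuous_tp n b).norm.pow 2)),
              intervalIntegral.integral_const,
              intervalIntegral.integral_const_mul (1 / (2 * A)) (fun t => ‖tp n b t‖ ^ 2), q]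
            simp only [sub_zero, smul_eq_mul]
        _ ≤ 2 * Real.pi * (A / 2) + (1 / (2 * A)) * (2 * Real.pi * A ^ 2) := by gcongr
        _ = 2 * Real.pi * A := by
            field_simp
            ring
    unfold N1
    rw [inv_mul_eq_div, div_le_iff₀ hpi]
    linarith

lemma Lp_one (n : ℕ) (P : ℂ[X]) (h : P.natDegree ≤ n) : Lp 1 P = 2 * Real.pi * N1 n P.coeff := by
  unfold Pool.Agent.P8H70.TR.Lp Ip N1
  rw [div_one, Real.rpow_one, ← mul_assoc, mul_inv_cancel₀ (by positivity), one_mul]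
  refine intervalIntegral.integral_congr fun t _ => ?_
  show ‖P.eval (cexp (t * I))‖ ^ (1 : ℝ) = _
  rw [Real.rpow_one, eval_eq_tp' n P h t]
where
  eval_eq_tp' (n : ℕ) (P : ℂ[X]) (h : P.natDegree ≤ n) (t : ℝ) :
      P.eval (cexp (t * I)) = tp n P.coeff t := by
    unfold tp
    rw [Polynomial.eval_eq_sum_range' (n := n + 1) (by omega)]
    refine Finset.sum_congr rfl fun j _ => ?_
    rw [exp_pow]

end Pool.Agent.P8H70.TU
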