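import Mathlib.Analysis.SpecialFunctions.Trigonometric.Chebyshev.Basic
import Pool.Agent.P8H70.TU.Basic
import Pool.Agent.P8H70.TR.Nik

/-!
# Project TU, assembly: the upper bound with the logarithm
-/

set_option autoImplicit false

open Complex MeasureTheory Polynomial Finset ComplexConjugate

namespace Pool.Agent.P8H70.TU

open Pool.Agent.P8H70.TR

lemma odd_part (m : ℝ) (hodd : ∀ z : ℂ, phi (-z) = -phi z) (N : ℕ) (c : ℕ → ℕ → ℂ) (E : ℝ)
    (h : ∀ x y : ℝ, ‖phi ((m * Real.cos x : ℝ) + (m * Real.cos y : ℝ) * I) -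
      ∑ a ∈ range (N + 1), ∑ b ∈ range (N + 1),
        c a b * (Real.cos (a * x) : ℂ) * (Real.cos (b * y) : ℂ)‖ ≤ E) (x y : ℝ) :
    ‖phi ((m * Real.cos x : ℝ) + (m * Real.cos y : ℝ) * I) -
      ∑ a ∈ range (N + 1), ∑ b ∈ range (N + 1), (if Odd (a + b) then c a b else 0) *
        ((Real.cos (a * x) : ℂ) * (Real.cos (b * y) : ℂ))‖ ≤ E := by
  have h1 := h x y
  have h2 := h (x + Real.pi) (y + Real.pi)
  have e1 : phi ((m * Real.cos (x + Real.pi) : ℝ) + (m * Real.cos (y + Real.pi) : ℝ) * I) =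
      -phi ((m * Real.cos x : ℝ) + (m * Real.cos y : ℝ) * I) := by
    rw [← hodd]
    congr 1
    rw [Real.cos_add_pi, Real.cos_add_pi]
    push_cast
    ring
  have e2 : ∀ (a : ℕ) (x : ℝ), Real.cos (a * (x + Real.pi)) = (-1) ^ a * Real.cos (a * x) := by
    intro a x
    rw [mul_add, Real.cos_add_nat_mul_pi]
  rw [e1] at h2
  set Z : ℂ := phi ((m * Real.cos x : ℝ) + (m * Real.cos y : ℝ) * I)
  set S1 : ℂ := ∑ a ∈ range (N + 1), ∑ b ∈ range (N + 1),
        c a b * (Real.cos (a * x) : ℂ) * (Real.cos (b * y) : ℂ)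
  set S2 : ℂ := ∑ a ∈ range (N + 1), ∑ b ∈ range (N + 1),
        c a b * (Real.cos (a * (x + Real.pi)) : ℂ) * (Real.cos (b * (y + Real.pi)) : ℂ) with hS2
  have e3 : ∑ a ∈ range (N + 1), ∑ b ∈ range (N + 1), (if Odd (a + b) then c a b else 0) *
        ((Real.cos (a * x) : ℂ) * (Real.cos (b * y) : ℂ)) = (S1 - S2) / 2 := by
    rw [eq_div_iff (by norm_num), Finset.sum_mul, ← Finset.sum_sub_distrib]
    refine Finset.sum_congr rfl fun a _ => ?_
    rw [Finset.sum_mul, ← Finset.sum_sub_distrib]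
    refine Finset.sum_congr rfl fun b _ => ?_
    rw [e2, e2]
    push_cast
    by_cases hab : Odd (a + b)
    · rw [if_pos hab]
      have h3 : (-1 : ℂ) ^ a * (-1) ^ b = -1 := by rw [← pow_add, hab.neg_one_pow]
      have h4 : c a b * ((-1) ^ a * Complex.cos (a * x)) * ((-1) ^ b * Complex.cos (b * y)) =
          ((-1 : ℂ) ^ a * (-1) ^ b) * (c a b * Complex.cos (a * x) * Complex.cos (b * y)) := by
        ring
      rw [h4, h3]
      ring
    · rw [if_neg hab]
      have hab' : Even (a + b) := Nat.not_odd_iff_even.1 hab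
      have h3 : (-1 : ℂ) ^ a * (-1) ^ b = 1 := by rw [← pow_add, hab'.neg_one_pow]
      have h4 : c a b * ((-1) ^ a * Complex.cos (a * x)) * ((-1) ^ b * Complex.cos (b * y)) =
          ((-1 : ℂ) ^ a * (-1) ^ b) * (c a b * Complex.cos (a * x) * Complex.cos (b * y)) := by
        ring
      rw [h4, h3]
      ring
  rw [e3]
  have e4 : Z - (S1 - S2) / 2 = ((Z - S1) - (-Z - S2)) / 2 := by ring
  rw [e4, norm_div]
  have h5 := norm_sub_le (Z - S1) (-Z - S2)
  have h6 : ‖(2 : ℂ)‖ = 2 := by simp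
  rw [h6, div_le_iff₀ (by norm_num)]
  linarith

lemma geo (N : ℕ) : ∑ a ∈ range (N + 1), (3 : ℝ) ^ a ≤ 3 ^ (N + 1) / 2 := by
  induction N with
  | zero => norm_num
  | succ N ih =>
    rw [Finset.sum_range_succ]
    have : (3 : ℝ) ^ (N + 1 + 1) = 3 * 3 ^ (N + 1) := by ring
    rw [this]
    linarith

/-- the main estimate for given parameters -/
theorem main_est (hALG : S_ALG) (hCHP : S_CHP) (hLIP : S_LIP) (hJ1 : S_J1) (hJ2 : S_J2) :
    ∃ C : ℝ, 0 < C ∧ ∀ (n r : ℕ) (a : ℕ → ℂ), 1 ≤ N1 n a →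
      N1 n (fun j => phi (a j)) ≤ 9 * 9 ^ (2 ^ r) +
        Real.sqrt ((n : ℝ) + 1) * (C * N1 n a / 2 ^ r) := by
  obtain ⟨l1, l2, l3, l4⟩ := hLIP
  obtain ⟨C, hC, hJ⟩ := hJ2 hJ1
  refine ⟨C, hC, fun n r a hm1 => ?_⟩
  set m : ℝ := N1 n a with hm
  have hm0 : 0 < m := by linarith
  set F : ℝ → ℝ → ℂ := fun x y => phi ((m * Real.cos x : ℝ) + (m * Real.cos y : ℝ) * I) with hF
  obtain ⟨c, hc1, hc2⟩ := hJ r F m 1 (by
      intro x x' y
      refine (l1 _ _).trans ?_
      have e : ((m * Real.cos x : ℝ) : ℂ) + (m * Real.cos y : ℝ) * I -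
          (((m * Real.cos x' : ℝ) : ℂ) + (m * Real.cos y : ℝ) * I) =
          ((m * (Real.cos x - Real.cos x') : ℝ) : ℂ) := by push_cast; ring
      rw [e, Complex.norm_real, Real.norm_eq_abs, abs_mul, abs_of_pos hm0]
      exact mul_le_mul_of_nonneg_left (Real.abs_cos_sub_cos_le x x') hm0.le) (by
      intro x y y'
      refine (l1 _ _).trans ?_
      have e : ((m * Real.cos x : ℝ) : ℂ) + (m * Real.cos y : ℝ) * I -
          (((m * Real.cos x : ℝ) : ℂ) + (m * Real.cos y' : ℝ) * I) =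
          ((m * (Real.cos y - Real.cos y') : ℝ) : ℂ) * I := by push_cast; ring
      rw [e, norm_mul, Complex.norm_I, mul_one, Complex.norm_real, Real.norm_eq_abs, abs_mul,
        abs_of_pos hm0]
      exact mul_le_mul_of_nonneg_left (Real.abs_cos_sub_cos_le y y') hm0.le)
    (by intro x y; simp only [hF, Real.cos_add_two_pi])
    (by intro x y; simp only [hF, Real.cos_add_two_pi])
    (by intro x y; simp only [hF, Real.cos_neg])
    (by intro x y; simp only [hF, Real.cos_neg])
    (fun x y => l3 _)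
  have hodd := odd_part m l2 (2 ^ r) c (C * m / 2 ^ r) hc2
  set c' : ℕ → ℕ → ℂ := fun a b => if Odd (a + b) then c a b else 0 with hc'
  -- the normalised real and imaginary parts
  set x : ℕ → ℂ := fun j => (((a j).re / m : ℝ) : ℂ) with hx
  set y : ℕ → ℂ := fun j => (((a j).im / m : ℝ) : ℂ) with hy
  have hconj := N1_conj n a
  have hx1 : N1 n x ≤ 1 := by
    have e : x = fun j => (1 / (2 * m) : ℂ) * (a j + conj (a j)) := by
      funext j
      rw [hx, Complex.add_conj]
      have : (m : ℂ) ≠ 0 := by exact_mod_cast hm0.ne'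
      push_cast
      field_simp
    rw [e, N1_smul]
    have h1 := N1_add n a (fun j => conj (a j))
    rw [hconj] at h1
    have h2 : ‖(1 / (2 * m) : ℂ)‖ = 1 / (2 * m) := by
      rw [norm_div, norm_mul, Complex.norm_real, Real.norm_eq_abs, abs_of_pos hm0]
      simp
    rw [h2]
    calc 1 / (2 * m) * N1 n (fun j => a j + conj (a j)) ≤ 1 / (2 * m) * (m + m) :=
          mul_le_mul_of_nonneg_left h1 (by positivity)
      _ = 1 := by field_simp; ring
  have hy1 : N1 n y ≤ 1 := by
    have e : y = fun j => (1 / (2 * m * I) : ℂ) * (a j + (-1) * conj (a j)) := by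
      funext j
      have h3 : a j + (-1) * conj (a j) = (((2 * (a j).im : ℝ)) : ℂ) * I := by
        have := Complex.sub_conj (a j)
        rw [neg_one_mul, ← sub_eq_add_neg, this]
      rw [hy, h3]
      have : (m : ℂ) ≠ 0 := by exact_mod_cast hm0.ne'
      push_cast
      field_simp
    rw [e, N1_smul]
    have h1 := N1_add n a (fun j => (-1) * conj (a j))
    rw [N1_smul, hconj] at h1
    have h2 : ‖(1 / (2 * m * I) : ℂ)‖ = 1 / (2 * m) := by
      rw [norm_div, norm_mul, norm_mul, Complex.norm_real, Complex.norm_I, Real.norm_eq_abs,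
        abs_of_pos hm0]
      simp
    rw [h2]
    calc 1 / (2 * m) * N1 n (fun j => a j + (-1) * conj (a j)) ≤
          1 / (2 * m) * (m + ‖(-1 : ℂ)‖ * m) :=
          mul_le_mul_of_nonneg_left h1 (by positivity)
      _ = 1 := by rw [norm_neg, norm_one]; field_simp; ring
  -- the approximation of the coefficients
  set A : ℕ → ℂ := fun j => ∑ k ∈ range (2 ^ r + 1), ∑ l ∈ range (2 ^ r + 1),
    c' k l * ((Polynomial.Chebyshev.T ℂ k).eval (x j) * (Polynomial.Chebyshev.T ℂ l).eval (y j))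
    with hA
  have happ : ∀ j ≤ n, ‖phi (a j) - A j‖ ≤ C * m / 2 ^ r := by
    intro j hj
    have hcj := coef_le n a j hj
    have h1 : |(a j).re / m| ≤ 1 := by
      rw [abs_div, abs_of_pos hm0, div_le_one hm0]
      exact (Complex.abs_re_le_norm _).trans hcj
    have h2 : |(a j).im / m| ≤ 1 := by
      rw [abs_div, abs_of_pos hm0, div_le_one hm0]
      exact (Complex.abs_im_le_norm _).trans hcj
    have h3 : Real.cos (Real.arccos ((a j).re / m)) = (a j).re / m :=
      Real.cos_arccos (abs_le.1 h1).1 (abs_le.1 h1).2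
    have h4 : Real.cos (Real.arccos ((a j).im / m)) = (a j).im / m :=
      Real.cos_arccos (abs_le.1 h2).1 (abs_le.1 h2).2
    have h5 := hodd (Real.arccos ((a j).re / m)) (Real.arccos ((a j).im / m))
    rw [h3, h4] at h5
    have h6 : ((m * ((a j).re / m) : ℝ) : ℂ) + (m * ((a j).im / m) : ℝ) * I = a j := by
      rw [mul_div_cancel₀ _ hm0.ne', mul_div_cancel₀ _ hm0.ne']
      exact Complex.re_add_im (a j)
    rw [h6] at h5
    have h7 : ∀ (k : ℕ) (z : ℝ), |z| ≤ 1 → ((Real.cos (k * Real.arccos z) : ℝ) : ℂ) =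
        (Polynomial.Chebyshev.T ℂ k).eval (z : ℂ) := by
      intro k z hz
      have h8 := Polynomial.Chebyshev.T_complex_cos ((Real.arccos z : ℝ) : ℂ) k
      have h9 : Complex.cos ((Real.arccos z : ℝ) : ℂ) = (z : ℂ) := by
        rw [← Complex.ofReal_cos, Real.cos_arccos (abs_le.1 hz).1 (abs_le.1 hz).2]
      rw [h9] at h8
      rw [h8]
      push_cast
      rfl
    have h8 : A j = ∑ k ∈ range (2 ^ r + 1), ∑ l ∈ range (2 ^ r + 1),
        (if Odd (k + l) then c k l else 0) *
        ((Real.cos (k * Real.arccos ((a j).re / m)) : ℂ) *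
          (Real.cos (l * Real.arccos ((a j).im / m)) : ℂ)) := by
      rw [hA]
      refine Finset.sum_congr rfl fun k _ => Finset.sum_congr rfl fun l _ => ?_
      rw [h7 k _ h1, h7 l _ h2]
    rw [h8]
    exact h5
  have hN1A : N1 n A ≤ 9 * 9 ^ (2 ^ r) := by
    have h1 : N1 n A ≤ ∑ k ∈ range (2 ^ r + 1), ∑ l ∈ range (2 ^ r + 1), 4 * (3 ^ k * 3 ^ l) := by
      rw [hA]
      refine (N1_sum n _ (fun k j => ∑ l ∈ range (2 ^ r + 1), c' k l *
        ((Polynomial.Chebyshev.T ℂ k).eval (x j) *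
          (Polynomial.Chebyshev.T ℂ l).eval (y j)))).trans ?_
      refine Finset.sum_le_sum fun k _ => ?_
      refine (N1_sum n _ (fun l j => c' k l * ((Polynomial.Chebyshev.T ℂ k).eval (x j) *
          (Polynomial.Chebyshev.T ℂ l).eval (y j)))).trans ?_
      refine Finset.sum_le_sum fun l _ => ?_
      rw [N1_smul]
      by_cases hkl : Odd (k + l)
      · have h2 := hCHP hALG n x y hx1 hy1 k l hkl
        have h3 : ‖c' k l‖ ≤ 4 := by
          rw [hc']
          simp only [if_pos hkl]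
          have := hc1 k l
          linarith
        rw [pow_add] at h2
        exact mul_le_mul h3 h2 (N1_nonneg _ _) (by norm_num)
      · have h3 : c' k l = 0 := by
          rw [hc']
          simp only [if_neg hkl]
        rw [h3, norm_zero, zero_mul]
        positivity
    refine h1.trans ?_
    have h2 : ∑ k ∈ range (2 ^ r + 1), ∑ l ∈ range (2 ^ r + 1), 4 * ((3 : ℝ) ^ k * 3 ^ l) =
        4 * ((∑ k ∈ range (2 ^ r + 1), (3 : ℝ) ^ k) * ∑ l ∈ range (2 ^ r + 1), (3 : ℝ) ^ l) := by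
      rw [Finset.sum_mul_sum, Finset.mul_sum]
      refine Finset.sum_congr rfl fun k _ => ?_
      rw [Finset.mul_sum]
    rw [h2]
    have h3 := geo (2 ^ r)
    have h4 : (0 : ℝ) ≤ ∑ k ∈ range (2 ^ r + 1), (3 : ℝ) ^ k :=
      Finset.sum_nonneg fun k _ => by positivity
    have h5 : (∑ k ∈ range (2 ^ r + 1), (3 : ℝ) ^ k) * (∑ l ∈ range (2 ^ r + 1), (3 : ℝ) ^ l) ≤
        3 ^ (2 ^ r + 1) / 2 * (3 ^ (2 ^ r + 1) / 2) := mul_le_mul h3 h3 h4 (by positivity)
    have h6 : (3 : ℝ) ^ (2 ^ r + 1) / 2 * (3 ^ (2 ^ r + 1) / 2) = 9 * 9 ^ (2 ^ r) / 4 := by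
      have : (9 : ℝ) = 3 * 3 := by norm_num
      rw [pow_succ, this, mul_pow]
      ring
    rw [h6] at h5
    linarith
  have e : N1 n (fun j => phi (a j)) ≤ N1 n A + N1 n (fun j => phi (a j) - A j) := by
    have h1 := N1_add n A (fun j => phi (a j) - A j)
    have h2 : (fun j => A j + (phi (a j) - A j)) = fun j => phi (a j) := by
      funext j; ring
    rw [h2] at h1
    exact h1
  refine e.trans ?_
  have h2 := N1_le_sqrt n (fun j => phi (a j) - A j) (C * m / 2 ^ r) (by positivity) happ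
  linarith

/-- the bound for `p = 1` -/
theorem up_one (hALG : S_ALG) (hCHP : S_CHP) (hLIP : S_LIP) (hJ1 : S_J1) (hJ2 : S_J2) :
    ∃ K : ℝ, 0 < K ∧ ∀ n : ℕ, 3 ≤ n → ∀ P : ℂ[X], P.natDegree ≤ n →
      Pool.Agent.P8H70.TR.Lp 1 (trunc P) ≤
        K * Real.sqrt n / Real.log n * Pool.Agent.P8H70.TR.Lp 1 P := by
  obtain ⟨C, hC, hmain⟩ := main_est hALG hCHP hLIP hJ1 hJ2
  obtain ⟨l1, l2, l3, l4⟩ := hLIP
  refine ⟨80 * C + 100, by positivity, fun n hn P hdeg => ?_⟩
  have hnR : (3 : ℝ) ≤ n := by exact_mod_cast hn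
  have hn0 : (0 : ℝ) < n := by linarith
  have hL1 : 1 ≤ Real.log n := by
    rw [Real.le_log_iff_exp_le hn0]
    have := Real.exp_one_lt_d9
    linarith
  have hL0 : 0 < Real.log n := by linarith
  have hsn : 0 < Real.sqrt n := Real.sqrt_pos.2 hn0
  have hdegT : (trunc P).natDegree ≤ n := by
    unfold trunc
    refine Polynomial.natDegree_sum_le_of_forall_le _ _ fun j hj => ?_
    exact (Polynomial.natDegree_monomial_le _).trans
      ((Polynomial.le_natDegree_of_mem_supp j hj).trans hdeg)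
  have hcoef : ∀ j, (trunc P).coeff j = phi (P.coeff j) := by
    intro j
    unfold trunc
    rw [Polynomial.finsetSum_coeff]
    simp only [Polynomial.coeff_monomial]
    rw [Finset.sum_ite_eq' P.support j]
    split_ifs with h
    · rfl
    · rw [Polynomial.notMem_support_iff] at h
      rw [h, phi_zero]
  rw [Lp_one n _ hdegT, Lp_one n P hdeg]
  have e1 : N1 n (trunc P).coeff = N1 n (fun j => phi (P.coeff j)) :=
    N1_congr fun j _ => hcoef j
  rw [e1]
  set a : ℕ → ℂ := P.coeff with ha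
  set m : ℝ := N1 n a with hm
  have hpi : 0 < 2 * Real.pi := by positivity
  suffices hs : N1 n (fun j => phi (a j)) ≤ (80 * C + 100) * Real.sqrt n / Real.log n * m by
    calc 2 * Real.pi * N1 n (fun j => phi (a j))
        ≤ 2 * Real.pi * ((80 * C + 100) * Real.sqrt n / Real.log n * m) :=
          mul_le_mul_of_nonneg_left hs hpi.le
      _ = _ := by ring
  -- `log n ≤ 2 sqrt n`
  have hlogs : Real.log n ≤ 2 * Real.sqrt n := by
    have h1 : Real.log n = 2 * Real.log (Real.sqrt n) := by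
      rw [Real.log_sqrt hn0.le]; ring
    have h2 := Real.log_le_sub_one_of_pos hsn
    linarith
  set R : ℝ := Real.sqrt n / Real.log n with hR
  have hR2 : 1 / 2 ≤ R := by
    rw [hR, le_div_iff₀ hL0]
    linarith
  have hR0 : 0 < R := by positivity
  have eR : (80 * C + 100) * Real.sqrt n / Real.log n * m = (80 * C + 100) * R * m := by
    rw [hR]; ring
  rw [eR]
  rcases le_or_gt m 1 with hm1 | hm1
  · -- no truncation
    have h1 : N1 n (fun j => phi (a j)) = m := N1_congr fun j hj =>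
      l4 _ ((coef_le n a j hj).trans hm1)
    rw [h1]
    have hmn : 0 ≤ m := N1_nonneg n a
    have h2 : 1 ≤ (80 * C + 100) * R := by nlinarith
    nlinarith
  · have hm0 : 0 < m := by linarith
    have hsq1 : Real.sqrt ((n : ℝ) + 1) ≤ 2 * Real.sqrt n := by
      rw [Real.sqrt_le_left (by positivity), mul_pow, Real.sq_sqrt hn0.le]
      linarith
    rcases lt_or_ge (Real.log n) 20 with hl | hl
    · -- small `n`
      have h1 := N1_le_sqrt n (fun j => phi (a j)) 1 zero_le_one fun j _ => l3 _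
      rw [mul_one] at h1
      refine h1.trans (hsq1.trans ?_)
      have h2 : 2 * Real.sqrt n ≤ 40 * R := by
        rw [hR, mul_div_assoc', le_div_iff₀ hL0]
        nlinarith
      nlinarith [mul_pos hR0 hm0, mul_pos hC (mul_pos hR0 hm0)]
    · obtain ⟨r, hr1, hr2⟩ := exists_nat_pow_near (x := Real.log n / 20) (y := (2 : ℝ))
        (by linarith) (by norm_num)
      have h1 := hmain n r a hm1.le
      have h2r : (0 : ℝ) < 2 ^ r := by positivity
      -- first term
      have t1 : (9 : ℝ) * 9 ^ (2 ^ r) ≤ 36 * R := by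
        have h2 : (9 : ℝ) ^ (2 ^ r) ≤ Real.exp (Real.log n / 4) := by
          have h3 : (9 : ℝ) ≤ Real.exp 3 := by
            have h4 : (2.7 : ℝ) ≤ Real.exp 1 := by
              have := Real.exp_one_gt_d9
              linarith
            have h5 : Real.exp 3 = Real.exp 1 ^ 3 := by
              rw [← Real.exp_nat_mul]; norm_num
            rw [h5]
            have h6 : (2.7 : ℝ) ^ 3 ≤ Real.exp 1 ^ 3 := pow_le_pow_left₀ (by norm_num) h4 3
            norm_num at h6
            linarith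
          refine (pow_le_pow_left₀ (by norm_num) h3 _).trans ?_
          rw [← Real.exp_nat_mul]
          apply Real.exp_le_exp.2
          push_cast
          nlinarith
        have h3 : Real.log n / 4 ≤ Real.exp (Real.log n / 4) := by
          have := Real.add_one_le_exp (Real.log n / 4)
          linarith
        have h4 : Real.exp (Real.log n / 4) * Real.exp (Real.log n / 4) = Real.sqrt n := by
          rw [← Real.exp_add, Real.sqrt_eq_rpow, Real.rpow_def_of_pos hn0]
          congr 1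
          ring
        have h5 : (9 : ℝ) ^ (2 ^ r) ≤ 4 * R := by
          rw [hR, mul_div_assoc', le_div_iff₀ hL0, ← h4]
          have h6 : 0 < Real.exp (Real.log n / 4) := Real.exp_pos _
          calc (9 : ℝ) ^ (2 ^ r) * Real.log n
              ≤ Real.exp (Real.log n / 4) * (4 * Real.exp (Real.log n / 4)) :=
                mul_le_mul h2 (by linarith) hL0.le h6.le
            _ = _ := by ring
        linarith
      -- second term
      have t2 : Real.sqrt ((n : ℝ) + 1) * (C * m / 2 ^ r) ≤ 80 * C * R * m := by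
        have h2 : 1 / (2 : ℝ) ^ r ≤ 40 / Real.log n := by
          rw [div_le_div_iff₀ h2r hL0]
          have : (2 : ℝ) ^ (r + 1) = 2 * 2 ^ r := by ring
          rw [this] at hr2
          linarith
        calc Real.sqrt ((n : ℝ) + 1) * (C * m / 2 ^ r)
            = Real.sqrt ((n : ℝ) + 1) * (C * m) * (1 / 2 ^ r) := by ring
          _ ≤ (2 * Real.sqrt n) * (C * m) * (40 / Real.log n) := by gcongr
          _ = 80 * C * R * m := by rw [hR]; ring
      have t3 : 36 * R ≤ 36 * R * m := by nlinarith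
      refine h1.trans ?_
      have h3 : 0 < R * m := by positivity
      nlinarith

/-- the bound for `p ≤ 1` -/
theorem upNC (hALG : S_ALG) (hCHP : S_CHP) (hLIP : S_LIP) (hJ1 : S_J1) (hJ2 : S_J2)
    (hRED : S_RED) (p : ℝ) (hp : 0 < p) (hp1 : p ≤ 1) :
    ∃ C : ℝ, 0 < C ∧ ∀ n : ℕ, 3 ≤ n →
      NC p n ≤ ENNReal.ofReal (C * (n : ℝ) ^ (1 / p - 1 / 2) / Real.log n) := by
  obtain ⟨K, hK, h1⟩ := up_one hALG hCHP hLIP hJ1 hJ2
  refine ⟨K * 2 ^ (1 / p - 1), by positivity, fun n hn => ?_⟩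
  have hnR : (3 : ℝ) ≤ n := by exact_mod_cast hn
  have hn0 : (0 : ℝ) < n := by linarith
  have hL0 : 0 < Real.log n := Real.log_pos (by linarith)
  have hp1' : 0 ≤ 1 / p - 1 := by
    rw [sub_nonneg, le_div_iff₀ hp]; linarith
  have h2 := hRED p hp hp1 n (K * Real.sqrt n / Real.log n) (by positivity) (h1 n hn)
  unfold NC
  refine iSup₂_le fun P hP => ENNReal.ofReal_le_ofReal ?_
  have h3 := h2 P hP.1
  rcases (Lp_nonneg p P).eq_or_lt with h0 | h0
  · rw [← h0, div_zero]
    positivity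
  · rw [div_le_iff₀ h0]
    refine h3.trans (mul_le_mul_of_nonneg_right ?_ h0.le)
    have h4 : ((n : ℝ) + 1) ^ (1 / p - 1) ≤ (2 * n) ^ (1 / p - 1) :=
      Real.rpow_le_rpow (by positivity) (by linarith) hp1'
    rw [Real.mul_rpow (by norm_num) hn0.le] at h4
    have h5 : Real.sqrt n * (n : ℝ) ^ (1 / p - 1) = (n : ℝ) ^ (1 / p - 1 / 2) := by
      rw [Real.sqrt_eq_rpow, ← Real.rpow_add hn0]
      congr 1
      ring
    calc K * Real.sqrt n / Real.log n * ((n : ℝ) + 1) ^ (1 / p - 1)
        ≤ K * Real.sqrt n / Real.log n * (2 ^ (1 / p - 1) * (n : ℝ) ^ (1 / p - 1)) :=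
          mul_le_mul_of_nonneg_left h4 (by positivity)
      _ = K * 2 ^ (1 / p - 1) * (Real.sqrt n * (n : ℝ) ^ (1 / p - 1)) / Real.log n := by ring
      _ = _ := by rw [h5]

end Pool.Agent.P8H70.TU
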