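import Pool.Agent.P8H70.TU.Stm

/-!
# Project TU, second stage: `N^comp_{n,p} ≤ C n^(1/p-1/2) (log n)^(-b)`, `b > 0`, for `1 < p < 2`

Let `λ = ‖P‖_p` (normalised). `f_1 = P (1 - h/|P|)_+`, `f_2 = P - f_1` (THR): `‖f_1‖_1 ≤ h^(1-p) λ^p`,
`‖f_2‖_2² ≤ h^(2-p) λ^p`. The coefficients of `f_1` on `[0, n]` are the middle part of the coefficients of a
polynomial of degree `3n` with almost the same `L_1` norm (VAL); approximate the truncation on these coefficients as for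
`p = 1`, restrict to the middle part (DIR), and estimate the `L_p` norm by `L_1` and `L_∞` (INT).
-/

set_option autoImplicit false

open Complex MeasureTheory Polynomial Finset ComplexConjugate

namespace Pool.Agent.P8H70.TU

open Pool.Agent.P8H70.TR (tp phi trunc Lp Ip)

/-- `(1/2π) ∫ |tp n a|^p` -/
noncomputable def Np (p : ℝ) (n : ℕ) (a : ℕ → ℂ) : ℝ :=
  (2 * Real.pi)⁻¹ * ∫ t in (0 : ℝ)..(2 * Real.pi), ‖tp n a t‖ ^ p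

/-- THR (100 lines). `f = tp n a`, `f_1 = f (1 - h/|f|)_+` (continuous; `0` where `|f| ≤ h`),
`f_2 = f - f_1`, `|f_2| ≤ min(|f|, h)`, `|f_1| ≤ |f|` and `f_1 = 0` where `|f| ≤ h`. `a1 j` is the `j`-th Fourier
coefficient of `f_1`. `|f_1| ≤ h^(1-p) |f|^p`, `|f_2|² ≤ h^(2-p) |f|^p`. The last claim is Bessel's inequality for `f_2`
(`a j` is the `j`-th Fourier coefficient of `f`). -/
def S_THR : Prop := ∀ (p h : ℝ), 1 < p → p < 2 → 0 < h → ∀ (n : ℕ) (a : ℕ → ℂ), ∃ g : ℝ → ℂ,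
  Continuous g ∧ (∀ t, g (t + 2 * Real.pi) = g t) ∧
  (2 * Real.pi)⁻¹ * ∫ t in (0 : ℝ)..(2 * Real.pi), ‖g t‖ ≤ h ^ (1 - p) * Np p n a ∧
  ∑ j ∈ range (n + 1), ‖a j - ((2 * Real.pi)⁻¹ : ℝ) * ∫ t in (0 : ℝ)..(2 * Real.pi),
    g t * cexp ((-(j * t : ℝ) : ℂ) * I)‖ ^ 2 ≤ h ^ (2 - p) * Np p n a

/-- VAL (100 lines). `V(t) = (∑_{a ≤ 2n} e^{iat}) (∑_{b ≤ n} e^{ibt}) / (n + 1)` has the coefficients `1` at
`l ∈ [n, 2n]`, the degree `3n` and `(1/2π) ∫ |V| ≤ sqrt(2n+1) sqrt(n+1) / (n+1) ≤ 2` (Cauchy-Schwarz). With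
`G(t) = g(t) e^{int}` take `b l = V_l * (l-th Fourier coefficient of G)`: `tp (3n) b t = (1/2π) ∫ G(s) V(t - s) ds`. -/
def S_VAL : Prop := ∀ (n : ℕ) (g : ℝ → ℂ), Continuous g → (∀ t, g (t + 2 * Real.pi) = g t) →
  ∃ b : ℕ → ℂ, N1 (3 * n) b ≤ 2 * ((2 * Real.pi)⁻¹ * ∫ t in (0 : ℝ)..(2 * Real.pi), ‖g t‖) ∧
    ∀ j ≤ n, b (n + j) = ((2 * Real.pi)⁻¹ : ℝ) * ∫ t in (0 : ℝ)..(2 * Real.pi),
      g t * cexp ((-(j * t : ℝ) : ℂ) * I)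

/-- DIR (60 lines). `|∑_{j=n}^{2n} e^{ijt}| ≤ min(n + 1, π / |t|)` for `|t| ≤ π`, so
`(1/2π) ∫ ≤ 1 + log(n+1)`-type bound; any bound `C (1 + log n)` or even `C n^(1/100)`-like is not needed: prove exactly
the statement. -/
def S_DIR : Prop := ∃ C : ℝ, 0 < C ∧ ∀ n : ℕ, 1 ≤ n →
  N1 (3 * n) (fun j => if n ≤ j ∧ j ≤ 2 * n then 1 else 0) ≤ C * (1 + Real.log n)

/-- INT (40 lines). `|f|^p ≤ M^(p-1) |f|` if `|f| ≤ M`. And the shift: `|∑_{j ≤ n} c_{n+j} e^{ijt}|` is the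
modulus of `∑_{l ≤ 3n} 1_{[n,2n]}(l) c_l e^{ilt}`; `M = (n+1) D`. -/
def S_INT : Prop := ∀ (p D : ℝ) (n : ℕ) (c : ℕ → ℂ), 1 < p → 0 ≤ D → (∀ j ≤ n, ‖c (n + j)‖ ≤ D) →
  Np p n (fun j => c (n + j)) ≤
    (((n : ℝ) + 1) * D) ^ (p - 1) * N1 (3 * n) (fun j => (if n ≤ j ∧ j ≤ 2 * n then 1 else 0) * c j)

end Pool.Agent.P8H70.TU
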