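import Mathlib.Analysis.SpecialFunctions.Trigonometric.Chebyshev.Basic
import Pool.Agent.P8H70.TU.Main
import Pool.Agent.P8H70.TU.Stm2

/-!
# Project TU, assembly of the second stage: preparations
-/

set_option autoImplicit false

open Complex MeasureTheory Polynomial Finset ComplexConjugate

namespace Pool.Agent.P8H70.TU

open Pool.Agent.P8H70.TR

/-- approximation of the truncated coefficients -/
theorem approx (hALG : S_ALG) (hCHP : S_CHP) (hLIP : S_LIP) (hJ1 : S_J1) (hJ2 : S_J2) :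
    ∃ C : ℝ, 0 < C ∧ ∀ (n r : ℕ) (a : ℕ → ℂ) (m : ℝ), 1 ≤ m → N1 n a ≤ m →
      ∃ A : ℕ → ℂ, (∀ j ≤ n, ‖phi (a j) - A j‖ ≤ C * m / 2 ^ r) ∧ N1 n A ≤ 9 * 9 ^ (2 ^ r) := by
  obtain ⟨l1, l2, l3, l4⟩ := hLIP
  obtain ⟨C, hC, hJ⟩ := hJ2 hJ1
  refine ⟨C, hC, fun n r a m hm1 hNm => ?_⟩
  have hm0 : 0 < m := by linarith
  set F : ℝ → ℝ → ℂ := fun x y => phi ((m * Real.cos x : ℝ) + (m * Real.cos y : ℝ) * I) with hF
  obtain ⟨c, hc1, hc2⟩ := hJ r F m 1 (by
      intro x x' y
      refine (l1 _ _).trans ?_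
      have e : ((m * Real.cos x : ℝ) : ℂ) + (m * Real.cos y : ℝ) * I -
          (((m * Real.cos x' : ℝ) : ℂ) + (m * Real.cos y : ℝ) * I) =
          ((m * (Real.cos x - Real.cos x') : ℝ) : ℂ) := by push_cast; ring
      rw [e, Complex.norm_real, Real.norm_eq_abs, abs_mul, abs_of_pos hm0]
      exact mul_le_mul_of_nonneg_left (Real.abs_cos_sub_cos_le x x') hm0.le) (by
      intro x y y'
      refine (l1 _ _).trans ?_
      have e : ((m * Real.cos x : ℝ) : ℂ) + (m * Real.cos y : ℝ) * I -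
          (((m * Real.cos x : ℝ) : ℂ) + (m * Real.cos y' : ℝ) * I) =
          ((m * (Real.cos y - Real.cos y') : ℝ) : ℂ) * I := by push_cast; ring
      rw [e, norm_mul, Complex.norm_I, mul_one, Complex.norm_real, Real.norm_eq_abs, abs_mul,
        abs_of_pos hm0]
      exact mul_le_mul_of_nonneg_left (Real.abs_cos_sub_cos_le y y') hm0.le)
    (by intro x y; simp only [hF, Real.cos_add_two_pi])
    (by intro x y; simp only [hF, Real.cos_add_two_pi])
    (by intro x y; simp only [hF, Real.cos_neg])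
    (by intro x y; simp only [hF, Real.cos_neg])
    (fun x y => l3 _)
  have hodd := odd_part m l2 (2 ^ r) c (C * m / 2 ^ r) hc2
  set c' : ℕ → ℕ → ℂ := fun a b => if Odd (a + b) then c a b else 0 with hc'
  set x : ℕ → ℂ := fun j => (((a j).re / m : ℝ) : ℂ) with hx
  set y : ℕ → ℂ := fun j => (((a j).im / m : ℝ) : ℂ) with hy
  have hconj := N1_conj n a
  have hx1 : N1 n x ≤ 1 := by
    have e : x = fun j => (1 / (2 * m) : ℂ) * (a j + conj (a j)) := by
      funext j
      rw [hx, Complex.add_conj]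
      have : (m : ℂ) ≠ 0 := by exact_mod_cast hm0.ne'
      push_cast
      field_simp
    rw [e, N1_smul]
    have h1 := N1_add n a (fun j => conj (a j))
    rw [hconj] at h1
    have h2 : ‖(1 / (2 * m) : ℂ)‖ = 1 / (2 * m) := by
      rw [norm_div, norm_mul, Complex.norm_real, Real.norm_eq_abs, abs_of_pos hm0]
      simp
    rw [h2]
    calc 1 / (2 * m) * N1 n (fun j => a j + conj (a j)) ≤ 1 / (2 * m) * (m + m) :=
          mul_le_mul_of_nonneg_left (by linarith) (by positivity)
      _ = 1 := by field_simp; ring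
  have hy1 : N1 n y ≤ 1 := by
    have e : y = fun j => (1 / (2 * m * I) : ℂ) * (a j + (-1) * conj (a j)) := by
      funext j
      have h3 : a j + (-1) * conj (a j) = (((2 * (a j).im : ℝ)) : ℂ) * I := by
        have := Complex.sub_conj (a j)
        rw [neg_one_mul, ← sub_eq_add_neg, this]
      rw [hy, h3]
      have : (m : ℂ) ≠ 0 := by exact_mod_cast hm0.ne'
      push_cast
      field_simp
    rw [e, N1_smul]
    have h1 := N1_add n a (fun j => (-1) * conj (a j))
    rw [N1_smul, hconj, norm_neg, norm_one, one_mul] at h1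
    have h2 : ‖(1 / (2 * m * I) : ℂ)‖ = 1 / (2 * m) := by
      rw [norm_div, norm_mul, norm_mul, Complex.norm_real, Complex.norm_I, Real.norm_eq_abs,
        abs_of_pos hm0]
      simp
    rw [h2]
    calc 1 / (2 * m) * N1 n (fun j => a j + (-1) * conj (a j)) ≤ 1 / (2 * m) * (m + m) :=
          mul_le_mul_of_nonneg_left (by linarith) (by positivity)
      _ = 1 := by field_simp; ring
  refine ⟨fun j => ∑ k ∈ range (2 ^ r + 1), ∑ l ∈ range (2 ^ r + 1),
    c' k l * ((Polynomial.Chebyshev.T ℂ k).eval (x j) * (Polynomial.Chebyshev.T ℂ l).eval (y j)),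
    ?_, ?_⟩
  · intro j hj
    have hcj := (coef_le n a j hj).trans hNm
    have h1 : |(a j).re / m| ≤ 1 := by
      rw [abs_div, abs_of_pos hm0, div_le_one hm0]
      exact (Complex.abs_re_le_norm _).trans hcj
    have h2 : |(a j).im / m| ≤ 1 := by
      rw [abs_div, abs_of_pos hm0, div_le_one hm0]
      exact (Complex.abs_im_le_norm _).trans hcj
    have h3 : Real.cos (Real.arccos ((a j).re / m)) = (a j).re / m :=
      Real.cos_arccos (abs_le.1 h1).1 (abs_le.1 h1).2
    have h4 : Real.cos (Real.arccos ((a j).im / m)) = (a j).im / m :=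
      Real.cos_arccos (abs_le.1 h2).1 (abs_le.1 h2).2
    have h5 := hodd (Real.arccos ((a j).re / m)) (Real.arccos ((a j).im / m))
    rw [h3, h4] at h5
    have h6 : ((m * ((a j).re / m) : ℝ) : ℂ) + (m * ((a j).im / m) : ℝ) * I = a j := by
      rw [mul_div_cancel₀ _ hm0.ne', mul_div_cancel₀ _ hm0.ne']
      exact Complex.re_add_im (a j)
    rw [h6] at h5
    have h7 : ∀ (k : ℕ) (z : ℝ), |z| ≤ 1 → ((Real.cos (k * Real.arccos z) : ℝ) : ℂ) =
        (Polynomial.Chebyshev.T ℂ k).eval (z : ℂ) := by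
      intro k z hz
      have h8 := Polynomial.Chebyshev.T_complex_cos ((Real.arccos z : ℝ) : ℂ) k
      have h9 : Complex.cos ((Real.arccos z : ℝ) : ℂ) = (z : ℂ) := by
        rw [← Complex.ofReal_cos, Real.cos_arccos (abs_le.1 hz).1 (abs_le.1 hz).2]
      rw [h9] at h8
      rw [h8]
      push_cast
      rfl
    have h8 : ∑ k ∈ range (2 ^ r + 1), ∑ l ∈ range (2 ^ r + 1),
        c' k l * ((Polynomial.Chebyshev.T ℂ k).eval (x j) *
          (Polynomial.Chebyshev.T ℂ l).eval (y j)) =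
        ∑ k ∈ range (2 ^ r + 1), ∑ l ∈ range (2 ^ r + 1),
        (if Odd (k + l) then c k l else 0) *
        ((Real.cos (k * Real.arccos ((a j).re / m)) : ℂ) *
          (Real.cos (l * Real.arccos ((a j).im / m)) : ℂ)) := by
      refine Finset.sum_congr rfl fun k _ => Finset.sum_congr rfl fun l _ => ?_
      rw [h7 k _ h1, h7 l _ h2]
    beta_reduce
    rw [h8]
    exact h5
  · have h1 : N1 n (fun j => ∑ k ∈ range (2 ^ r + 1), ∑ l ∈ range (2 ^ r + 1),
        c' k l * ((Polynomial.Chebyshev.T ℂ k).eval (x j) *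
          (Polynomial.Chebyshev.T ℂ l).eval (y j))) ≤
        ∑ k ∈ range (2 ^ r + 1), ∑ l ∈ range (2 ^ r + 1), 4 * (3 ^ k * 3 ^ l) := by
      refine (N1_sum n _ (fun k j => ∑ l ∈ range (2 ^ r + 1), c' k l *
        ((Polynomial.Chebyshev.T ℂ k).eval (x j) *
          (Polynomial.Chebyshev.T ℂ l).eval (y j)))).trans ?_
      refine Finset.sum_le_sum fun k _ => ?_
      refine (N1_sum n _ (fun l j => c' k l * ((Polynomial.Chebyshev.T ℂ k).eval (x j) *
          (Polynomial.Chebyshev.T ℂ l).eval (y j)))).trans ?_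
      refine Finset.sum_le_sum fun l _ => ?_
      rw [N1_smul]
      by_cases hkl : Odd (k + l)
      · have h2 := hCHP hALG n x y hx1 hy1 k l hkl
        have h3 : ‖c' k l‖ ≤ 4 := by
          rw [hc']
          simp only [if_pos hkl]
          have := hc1 k l
          linarith
        rw [pow_add] at h2
        exact mul_le_mul h3 h2 (N1_nonneg _ _) (by norm_num)
      · have h3 : c' k l = 0 := by
          rw [hc']
          simp only [if_neg hkl]
        rw [h3, norm_zero, zero_mul]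
        positivity
    refine h1.trans ?_
    have h2 : ∑ k ∈ range (2 ^ r + 1), ∑ l ∈ range (2 ^ r + 1), 4 * ((3 : ℝ) ^ k * 3 ^ l) =
        4 * ((∑ k ∈ range (2 ^ r + 1), (3 : ℝ) ^ k) * ∑ l ∈ range (2 ^ r + 1), (3 : ℝ) ^ l) := by
      rw [Finset.sum_mul_sum, Finset.mul_sum]
      refine Finset.sum_congr rfl fun k _ => ?_
      rw [Finset.mul_sum]
    rw [h2]
    have h3 := geo (2 ^ r)
    have h4 : (0 : ℝ) ≤ ∑ k ∈ range (2 ^ r + 1), (3 : ℝ) ^ k :=
      Finset.sum_nonneg fun k _ => by positivity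
    have h5 : (∑ k ∈ range (2 ^ r + 1), (3 : ℝ) ^ k) * (∑ l ∈ range (2 ^ r + 1), (3 : ℝ) ^ l) ≤
        3 ^ (2 ^ r + 1) / 2 * (3 ^ (2 ^ r + 1) / 2) := mul_le_mul h3 h3 h4 (by positivity)
    have h6 : (3 : ℝ) ^ (2 ^ r + 1) / 2 * (3 ^ (2 ^ r + 1) / 2) = 9 * 9 ^ (2 ^ r) / 4 := by
      have : (9 : ℝ) = 3 * 3 := by norm_num
      rw [pow_succ, this, mul_pow]
      ring
    rw [h6] at h5
    linarith

lemma Np_nonneg (p : ℝ) (n : ℕ) (a : ℕ → ℂ) : 0 ≤ Np p n a := by
  unfold Np
  apply mul_nonneg (by positivity)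
  exact intervalIntegral.integral_nonneg (by positivity) fun t _ => by positivity

lemma Np_congr {p : ℝ} {n : ℕ} {b c : ℕ → ℂ} (h : ∀ j ≤ n, b j = c j) : Np p n b = Np p n c := by
  unfold Np
  congr 1
  exact intervalIntegral.integral_congr fun t _ => by
    show ‖tp n b t‖ ^ p = ‖tp n c t‖ ^ p
    rw [tp_congr h]

lemma Np_int {p : ℝ} (hp : 0 < p) (n : ℕ) (b : ℕ → ℂ) :
    IntervalIntegrable (fun t => ‖tp n b t‖ ^ p) volume 0 (2 * Real.pi) :=
  ((continuous_tp n b).norm.rpow_const fun t => Or.inr hp.le).intervalIntegrable _ _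

/-- Jensen -/
lemma Np_le {p : ℝ} (hp : 0 < p) (hp2 : p < 2) (n : ℕ) (b : ℕ → ℂ) (m : ℝ) (hm : 0 < m)
    (h : ∑ j ∈ range (n + 1), ‖b j‖ ^ 2 ≤ m) : Np p n b ≤ m ^ (p / 2) := by
  have hpi : 0 < 2 * Real.pi := by positivity
  have q2 := parseval n b
  set g : ℝ → ℝ := fun t => ‖tp n b t‖ with hg
  have hgc : Continuous g := (continuous_tp n _).norm
  have hg0 : ∀ t, 0 ≤ g t := fun t => norm_nonneg _
  have pt : ∀ t, g t ^ p ≤ m ^ (p / 2) * (1 + p / 2 * (g t ^ 2 / m - 1)) := by
    intro t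
    have b := rpow_one_add_le_one_add_mul_self (s := g t ^ 2 / m - 1) (by
      have : 0 ≤ g t ^ 2 / m := by positivity
      linarith) (p := p / 2) (by positivity) (by linarith)
    have e3 : 1 + (g t ^ 2 / m - 1) = g t ^ 2 / m := by ring
    rw [e3] at b
    have e4 : g t ^ p = m ^ (p / 2) * (g t ^ 2 / m) ^ (p / 2) := by
      rw [← Real.mul_rpow hm.le (by positivity), mul_div_cancel₀ _ hm.ne',
        ← Real.rpow_natCast, ← Real.rpow_mul (hg0 t)]
      congr 1
      push_cast
      ring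
    rw [e4]
    exact mul_le_mul_of_nonneg_left b (by positivity)
  have s1 : ∫ t in (0 : ℝ)..(2 * Real.pi), g t ^ p ≤ 2 * Real.pi * m ^ (p / 2) := by
    calc ∫ t in (0 : ℝ)..(2 * Real.pi), g t ^ p
        ≤ ∫ t in (0 : ℝ)..(2 * Real.pi), m ^ (p / 2) * (1 + p / 2 * (g t ^ 2 / m - 1)) := by
          apply intervalIntegral.integral_mono_on hpi.le
          · exact (hgc.rpow_const fun t => Or.inr hp.le).intervalIntegrable _ _
          · apply Continuous.intervalIntegrable
            fun_prop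
          · intro t _
            exact pt t
      _ = m ^ (p / 2) * (2 * Real.pi * (1 - p / 2) +
            p / 2 / m * ∫ t in (0 : ℝ)..(2 * Real.pi), g t ^ 2) := by
          have e5 : ∀ t, m ^ (p / 2) * (1 + p / 2 * (g t ^ 2 / m - 1)) =
              m ^ (p / 2) * (1 - p / 2) + m ^ (p / 2) * (p / 2 / m) * g t ^ 2 := by
            intro t
            field_simp
            ring
          rw [intervalIntegral.integral_congr fun t _ => e5 t,
            intervalIntegral.integral_add (by simp) (by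
              apply Continuous.intervalIntegrable
              fun_prop), intervalIntegral.integral_const,
            intervalIntegral.integral_const_mul (m ^ (p / 2) * (p / 2 / m)) (fun t => g t ^ 2)]
          simp only [sub_zero, smul_eq_mul]
          ring
      _ ≤ m ^ (p / 2) * (2 * Real.pi * (1 - p / 2) + p / 2 / m * (2 * Real.pi * m)) := by
          have : ∫ t in (0 : ℝ)..(2 * Real.pi), g t ^ 2 ≤ 2 * Real.pi * m := by
            rw [q2]
            exact mul_le_mul_of_nonneg_left h hpi.le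
          gcongr
      _ = 2 * Real.pi * m ^ (p / 2) := by
          field_simp
          ring
  unfold Np
  rw [inv_mul_eq_div, div_le_iff₀ hpi]
  linarith

lemma Np_add3 {p : ℝ} (hp : 0 < p) (hp2 : p < 2) (n : ℕ) (b c d : ℕ → ℂ) :
    Np p n (fun j => b j + c j + d j) ≤ 9 * (Np p n b + Np p n c + Np p n d) := by
  unfold Np
  have e : 9 * ((2 * Real.pi)⁻¹ * (∫ t in (0 : ℝ)..(2 * Real.pi), ‖tp n b t‖ ^ p) +
      (2 * Real.pi)⁻¹ * (∫ t in (0 : ℝ)..(2 * Real.pi), ‖tp n c t‖ ^ p) +
      (2 * Real.pi)⁻¹ * ∫ t in (0 : ℝ)..(2 * Real.pi), ‖tp n d t‖ ^ p) =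
      (2 * Real.pi)⁻¹ * ∫ t in (0 : ℝ)..(2 * Real.pi),
        9 * (‖tp n b t‖ ^ p + ‖tp n c t‖ ^ p + ‖tp n d t‖ ^ p) := by
    rw [intervalIntegral.integral_const_mul, intervalIntegral.integral_add
      ((Np_int hp n b).add (Np_int hp n c)) (Np_int hp n d),
      intervalIntegral.integral_add (Np_int hp n b) (Np_int hp n c)]
    ring
  rw [e]
  apply mul_le_mul_of_nonneg_left _ (by positivity)
  apply intervalIntegral.integral_mono_on (by positivity) (Np_int hp n _)
    ((((Np_int hp n b).add (Np_int hp n c)).add (Np_int hp n d)).const_mul 9)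
  intro t _
  have h1 : tp n (fun j => b j + c j + d j) t = tp n b t + tp n c t + tp n d t := by
    unfold tp
    rw [← Finset.sum_add_distrib, ← Finset.sum_add_distrib]
    exact Finset.sum_congr rfl fun j _ => by ring
  rw [h1]
  set x := ‖tp n b t‖ with hx
  set y := ‖tp n c t‖ with hy
  set z := ‖tp n d t‖ with hz
  have hx0 : 0 ≤ x := norm_nonneg _
  have hy0 : 0 ≤ y := norm_nonneg _
  have hz0 : 0 ≤ z := norm_nonneg _
  have h2 : ‖tp n b t + tp n c t + tp n d t‖ ≤ 3 * max x (max y z) := by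
    refine (norm_add₃_le).trans ?_
    have := le_max_left x (max y z)
    have := (le_max_left y z).trans (le_max_right x (max y z))
    have := (le_max_right y z).trans (le_max_right x (max y z))
    linarith
  have hm0 : 0 ≤ max x (max y z) := hx0.trans (le_max_left _ _)
  have h3 : ‖tp n b t + tp n c t + tp n d t‖ ^ p ≤ 9 * (max x (max y z)) ^ p := by
    refine (Real.rpow_le_rpow (norm_nonneg _) h2 hp.le).trans ?_
    rw [Real.mul_rpow (by norm_num) hm0]
    refine mul_le_mul_of_nonneg_right ?_ (by positivity)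
    calc (3 : ℝ) ^ p ≤ 3 ^ (2 : ℝ) := Real.rpow_le_rpow_of_exponent_le (by norm_num) hp2.le
      _ = 9 := by norm_num
  have h4 : (max x (max y z)) ^ p ≤ x ^ p + y ^ p + z ^ p := by
    have a1 : 0 ≤ x ^ p := by positivity
    have a2 : 0 ≤ y ^ p := by positivity
    have a3 : 0 ≤ z ^ p := by positivity
    rcases max_cases x (max y z) with ⟨h, _⟩ | ⟨h, _⟩
    · rw [h]; linarith
    · rw [h]
      rcases max_cases y z with ⟨h', _⟩ | ⟨h', _⟩
      · rw [h']; linarith
      · rw [h']; linarith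
  show _ ≤ 9 * (x ^ p + y ^ p + z ^ p)
  linarith

end Pool.Agent.P8H70.TU
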