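import Pool.Agent.P8H70.TU.Approx

/-!
# Project TU, assembly of the second stage: the estimate
-/

set_option autoImplicit false

open Complex MeasureTheory Polynomial Finset ComplexConjugate

namespace Pool.Agent.P8H70.TU

open Pool.Agent.P8H70.TR

/-- powers of `u` against exponentials of `u` -/
lemma log_lin (κ ε : ℝ) (hκ : 0 ≤ κ) (hε : 0 < ε) :
    ∃ c : ℝ, 0 ≤ c ∧ ∀ u : ℝ, 0 < u → κ * Real.log u ≤ ε * u + c := by
  set η : ℝ := ε / (κ + 1) with hη
  have hη0 : 0 < η := by positivity
  refine ⟨κ * |Real.log η|, by positivity, fun u hu => ?_⟩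
  have h1 := Real.log_le_sub_one_of_pos (mul_pos hη0 hu)
  rw [Real.log_mul hη0.ne' hu.ne'] at h1
  have h2 : Real.log u ≤ η * u + |Real.log η| := by
    have := neg_abs_le (Real.log η)
    linarith
  have h3 : κ * Real.log u ≤ κ * (η * u + |Real.log η|) := mul_le_mul_of_nonneg_left h2 hκ
  have h4 : κ * η ≤ ε := by
    rw [hη, mul_div_assoc', div_le_iff₀ (by positivity)]
    nlinarith
  have h5 : κ * η * u ≤ ε * u := mul_le_mul_of_nonneg_right h4 hu.le
  linarith

lemma fourier_le (g : ℝ → ℂ) (j : ℕ) :
    ‖((2 * Real.pi)⁻¹ : ℝ) * ∫ t in (0 : ℝ)..(2 * Real.pi), g t * cexp ((-(j * t : ℝ) : ℂ) * I)‖ ≤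
      (2 * Real.pi)⁻¹ * ∫ t in (0 : ℝ)..(2 * Real.pi), ‖g t‖ := by
  rw [norm_mul, Complex.norm_real, Real.norm_eq_abs, abs_of_nonneg (by positivity)]
  apply mul_le_mul_of_nonneg_left _ (by positivity)
  refine (intervalIntegral.norm_integral_le_integral_norm (by positivity)).trans (le_of_eq ?_)
  refine intervalIntegral.integral_congr fun t _ => ?_
  show ‖g t * cexp ((-(j * t : ℝ) : ℂ) * I)‖ = ‖g t‖
  rw [norm_mul]
  have : (-(j * t : ℝ) : ℂ) * I = ((-(j * t) : ℝ) : ℂ) * I := by push_cast; ring
  rw [this, Complex.norm_exp_ofReal_mul_I, mul_one]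

/-- the main estimate for `1 < p < 2` -/
theorem np_est (hALG : S_ALG) (hCHP : S_CHP) (hLIP : S_LIP) (hJ1 : S_J1) (hJ2 : S_J2)
    (hTHR : S_THR) (hVAL : S_VAL) (hDIR : S_DIR) (hINT : S_INT) (p : ℝ) (hp1 : 1 < p)
    (hp2 : p < 2) : ∃ C κ : ℝ, 0 < C ∧ 0 < κ ∧ ∀ n : ℕ, 3 ≤ n → ∀ a : ℕ → ℂ, 0 < Np p n a →
      Np p n (fun j => phi (a j)) ≤
        C * Real.exp ((1 - p / 2) * Real.log n - κ * Real.log (Real.log n)) * Np p n a := by
  have hp0 : 0 < p := by linarith
  obtain ⟨C0, hC0, happ⟩ := approx hALG hCHP hLIP hJ1 hJ2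
  obtain ⟨l1, l2, l3, l4⟩ := hLIP
  obtain ⟨CD, hCD, hdir⟩ := hDIR
  set s : ℝ := (4 + p) / (2 - p) with hs
  have h2p : 0 < 2 - p := by linarith
  have hp1' : 0 < p - 1 := by linarith
  have hs0 : 0 < s := by positivity
  have hs2 : (2 - p) * s = 4 + p := by rw [hs]; field_simp
  set t : ℝ := s * (p - 1) + p with ht
  have ht0 : 0 < t := by positivity
  set κ0 : ℝ := min p (p * (2 - p) / (2 * (p - 1))) with hκ0
  have hκ0pos : 0 < κ0 := lt_min hp0 (by positivity)
  set δ : ℝ := (2 - p) / (12 * p) with hδ
  have hδ0 : 0 < δ := by positivity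
  obtain ⟨c1, hc1, hc1'⟩ := log_lin κ0 (1 - p / 2) hκ0pos.le (by linarith)
  obtain ⟨c2, hc2, hc2'⟩ := log_lin (1 + 2 * p) ((2 - p) / 4) (by linarith) (by linarith)
  set q2 : ℝ := 2 * (4 * C0 / δ) ^ 2 with hq2
  set q3 : ℝ := 26244 * CD * Real.exp c2 with hq3
  refine ⟨2 + 9 * (2 + Real.exp c1) + 9 * (1 + (1 + q2) + q3), κ0 / (t + 2), by positivity,
    by positivity, fun n hn a hQ => ?_⟩
  set Q : ℝ := Np p n a with hQdef
  have hnR : (3 : ℝ) ≤ n := by exact_mod_cast hn
  have hn0 : (0 : ℝ) < n := by linarith
  set u : ℝ := Real.log n with hu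
  have hu1 : 1 ≤ u := by
    rw [hu, Real.le_log_iff_exp_le hn0]
    have := Real.exp_one_lt_d9
    linarith
  have hu0 : 0 < u := by linarith
  have hnu : (n : ℝ) = Real.exp u := by rw [hu, Real.exp_log hn0]
  set v : ℝ := Real.log u / (t + 2) with hv
  have hlu : 0 ≤ Real.log u := Real.log_nonneg hu1
  have hv0 : 0 ≤ v := by positivity
  have hvu : (t + 2) * v = Real.log u := by rw [hv]; field_simp
  have hvl : v ≤ Real.log u := by
    rw [hv, div_le_iff₀ (by positivity)]
    nlinarith
  have huv : u = Real.exp ((t + 2) * v) := by rw [hvu, Real.exp_log hu0]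
  have eκ : κ0 / (t + 2) * Real.log u = κ0 * v := by rw [hv]; ring
  rw [eκ]
  set M : ℝ := Real.exp ((1 - p / 2) * u - κ0 * v) with hM
  have hM0 : 0 < M := Real.exp_pos _
  have hMQ : 0 < M * Q := by positivity
  set w : ℝ := Real.log Q with hw
  have hQw : Q = Real.exp w := by rw [hw, Real.exp_log hQ]
  have h2n : (n : ℝ) + 1 ≤ 2 * n := by linarith
  have hκp : κ0 * v ≤ p * v := mul_le_mul_of_nonneg_right (min_le_left _ _) hv0
  have hκp' : κ0 * v ≤ p * (2 - p) / (2 * (p - 1)) * v :=
    mul_le_mul_of_nonneg_right (min_le_right _ _) hv0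
  -- it suffices to bound by one of the three constants
  have fin : ∀ K : ℝ, 0 ≤ K → K ≤ 2 + 9 * (2 + Real.exp c1) + 9 * (1 + (1 + q2) + q3) →
      Np p n (fun j => phi (a j)) ≤ K * (M * Q) →
      Np p n (fun j => phi (a j)) ≤
        (2 + 9 * (2 + Real.exp c1) + 9 * (1 + (1 + q2) + q3)) * M * Q := by
    intro K _ hK h
    refine h.trans ?_
    rw [mul_assoc]
    exact mul_le_mul_of_nonneg_right hK hMQ.le
  have hex1 : 0 < Real.exp c1 := Real.exp_pos _
  have hq20 : 0 ≤ q2 := by positivity
  have hq30 : 0 ≤ q3 := by positivity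
  rcases le_or_gt ((p - 1) * u + p * v) w with hA | hA
  · -- Case A
    apply fin 2 (by norm_num) (by linarith)
    have h1 := Np_le hp0 hp2 n (fun j => phi (a j)) (2 * n) (by positivity) (by
      calc ∑ j ∈ range (n + 1), ‖phi (a j)‖ ^ 2 ≤ ∑ j ∈ range (n + 1), (1 : ℝ) :=
            Finset.sum_le_sum fun j _ => by
              have := l3 (a j)
              have := norm_nonneg (phi (a j))
              nlinarith
        _ = (n : ℝ) + 1 := by simp
        _ ≤ 2 * n := h2n)
    refine h1.trans ?_
    rw [Real.mul_rpow (by norm_num) hn0.le]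
    have h2 : (2 : ℝ) ^ (p / 2) ≤ 2 := by
      calc (2 : ℝ) ^ (p / 2) ≤ 2 ^ (1 : ℝ) :=
            Real.rpow_le_rpow_of_exponent_le (by norm_num) (by linarith)
        _ = 2 := by norm_num
    have h3 : (n : ℝ) ^ (p / 2) ≤ M * Q := by
      rw [hnu, ← Real.exp_mul, hM, hQw, ← Real.exp_add]
      apply Real.exp_le_exp.2
      linarith
    exact mul_le_mul h2 h3 (by positivity) (by norm_num)
  · rcases le_or_gt w ((p - 1) * u - p * v) with hB | hB
    · -- Case B1
      apply fin (9 * (2 + Real.exp c1)) (by positivity) (by linarith)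
      set h : ℝ := Real.exp (w / (p - 1)) with hh
      obtain ⟨g, hg1, hg2, hg3, hg4⟩ := hTHR p h hp1 hp2 (Real.exp_pos _) n a
      rw [← hQdef] at hg3 hg4
      have e1 : h ^ (1 - p) * Q = 1 := by
        rw [hh, hQw, ← Real.exp_mul, ← Real.exp_add]
        have : w / (p - 1) * (1 - p) + w = 0 := by field_simp; ring
        rw [this, Real.exp_zero]
      rw [e1] at hg3
      set a1 : ℕ → ℂ := fun j => ((2 * Real.pi)⁻¹ : ℝ) *
        ∫ t in (0 : ℝ)..(2 * Real.pi), g t * cexp ((-(j * t : ℝ) : ℂ) * I) with ha1
      have ha1le : ∀ j, ‖a1 j‖ ≤ 1 := fun j => (fourier_le g j).trans hg3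
      set X : ℝ := Real.exp (p * w / (2 * (p - 1))) with hX
      have eX : h ^ (2 - p) * Q = Real.exp (w / (p - 1)) := by
        rw [hh, hQw, ← Real.exp_mul, ← Real.exp_add]
        congr 1
        field_simp
        ring
      have eX2 : (Real.exp (w / (p - 1))) ^ (p / 2) = X := by
        rw [← Real.exp_mul, hX]
        congr 1
        field_simp
      rw [eX] at hg4
      have hX1 : X ≤ M * Q := by
        rw [hX, hM, hQw, ← Real.exp_add]
        apply Real.exp_le_exp.2
        have h1 : p * w / (2 * (p - 1)) = w + (2 - p) / (2 * (p - 1)) * w := by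
          field_simp
          ring
        have h2 : (2 - p) / (2 * (p - 1)) * w ≤ (2 - p) / (2 * (p - 1)) *
            ((p - 1) * u - p * v) := mul_le_mul_of_nonneg_left hB (by positivity)
        have h3 : (2 - p) / (2 * (p - 1)) * ((p - 1) * u - p * v) =
            (1 - p / 2) * u - p * (2 - p) / (2 * (p - 1)) * v := by
          field_simp
        rw [h1]
        linarith
      have hdec : Np p n (fun j => phi (a j)) = Np p n (fun j => (phi (a j) - phi (a1 j)) +
          (a1 j - a j) + a j) := by
        refine Np_congr fun j _ => ?_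
        rw [l4 _ (ha1le j)]
        ring
      rw [hdec]
      refine (Np_add3 hp0 hp2 n _ _ _).trans ?_
      have t1 : Np p n (fun j => phi (a j) - phi (a1 j)) ≤ X := by
        rw [← eX2]
        refine Np_le hp0 hp2 n _ _ (Real.exp_pos _) (le_trans ?_ hg4)
        refine Finset.sum_le_sum fun j _ => ?_
        exact pow_le_pow_left₀ (norm_nonneg _) (l1 _ _) 2
      have t2 : Np p n (fun j => a1 j - a j) ≤ X := by
        rw [← eX2]
        refine Np_le hp0 hp2 n _ _ (Real.exp_pos _) (le_trans ?_ hg4)
        refine Finset.sum_le_sum fun j _ => ?_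
        rw [norm_sub_rev]
      have t3 : Q ≤ Real.exp c1 * (M * Q) := by
        have h1 : 1 ≤ Real.exp c1 * M := by
          rw [hM, ← Real.exp_add, Real.one_le_exp_iff]
          have h2 := hc1' u hu0
          have h3 : κ0 * v ≤ κ0 * Real.log u := mul_le_mul_of_nonneg_left hvl hκ0pos.le
          linarith
        nlinarith
      nlinarith
    · -- Case B2
      apply fin (9 * (1 + (1 + q2) + q3)) (by positivity) (by linarith)
      set h : ℝ := Real.exp (u - s * v) with hh
      obtain ⟨g, hg1, hg2, hg3, hg4⟩ := hTHR p h hp1 hp2 (Real.exp_pos _) n a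
      rw [← hQdef] at hg3 hg4
      have e1 : h ^ (1 - p) * Q ≤ Real.exp (t * v) := by
        rw [hh, hQw, ← Real.exp_mul, ← Real.exp_add]
        apply Real.exp_le_exp.2
        rw [ht]
        nlinarith
      have e2 : h ^ (2 - p) * Q ≤ Real.exp (u - 4 * v) := by
        rw [hh, hQw, ← Real.exp_mul, ← Real.exp_add]
        apply Real.exp_le_exp.2
        have : (u - s * v) * (2 - p) = (2 - p) * u - ((2 - p) * s) * v := by ring
        rw [this, hs2]
        linarith
      have hg3' := hg3.trans e1
      have hg4' := hg4.trans e2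
      set a1 : ℕ → ℂ := fun j => ((2 * Real.pi)⁻¹ : ℝ) *
        ∫ t in (0 : ℝ)..(2 * Real.pi), g t * cexp ((-(j * t : ℝ) : ℂ) * I) with ha1
      obtain ⟨b, hb1, hb2⟩ := hVAL n g hg1 hg2
      set m : ℝ := 2 * Real.exp (t * v) with hm
      have hm1 : 1 ≤ m := by
        have : 1 ≤ Real.exp (t * v) := Real.one_le_exp (by positivity)
        linarith
      have hbm : N1 (3 * n) b ≤ m := hb1.trans (by rw [hm]; linarith)
      -- the choice of `r`
      obtain ⟨r, hr1, hr2⟩ : ∃ r : ℕ, 1 / (2 : ℝ) ^ r ≤ 2 / (δ * u) ∧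
          (9 : ℝ) ^ (2 ^ r) ≤ 9 * Real.exp (3 * δ * u) := by
        have h9 : (9 : ℝ) ≤ Real.exp 3 := by
          have h4 : (2.7 : ℝ) ≤ Real.exp 1 := by
            have := Real.exp_one_gt_d9
            linarith
          have h5 : Real.exp 3 = Real.exp 1 ^ 3 := by
            rw [← Real.exp_nat_mul]; norm_num
          rw [h5]
          have h6 : (2.7 : ℝ) ^ 3 ≤ Real.exp 1 ^ 3 := pow_le_pow_left₀ (by norm_num) h4 3
          norm_num at h6
          linarith
        have hδu : 0 < δ * u := by positivity
        rcases le_or_gt 1 (δ * u) with hd | hd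
        · obtain ⟨r, hr1, hr2⟩ := exists_nat_pow_near (x := δ * u) (y := (2 : ℝ)) hd
            (by norm_num)
          refine ⟨r, ?_, ?_⟩
          · rw [div_le_div_iff₀ (by positivity) hδu]
            have : (2 : ℝ) ^ (r + 1) = 2 * 2 ^ r := by ring
            rw [this] at hr2
            linarith
          · have h1 : (9 : ℝ) ^ (2 ^ r) ≤ Real.exp (3 * δ * u) := by
              refine (pow_le_pow_left₀ (by norm_num) h9 _).trans ?_
              rw [← Real.exp_nat_mul]
              apply Real.exp_le_exp.2
              push_cast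
              nlinarith
            have := Real.exp_pos (3 * δ * u)
            linarith
        · refine ⟨0, ?_, ?_⟩
          · rw [pow_zero, div_le_div_iff₀ one_pos hδu]
            linarith
          · rw [pow_zero, pow_one]
            have : 1 ≤ Real.exp (3 * δ * u) := Real.one_le_exp (by positivity)
            linarith
      obtain ⟨A, hA1, hA2⟩ := happ (3 * n) r b m hm1 hbm
      set D : ℝ := 9 * 9 ^ (2 ^ r) with hD
      have hD0 : 0 < D := by positivity
      set Z : ℝ := Real.exp (p / 2 * u - 2 * p * v) with hZ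
      have hZ0 : 0 < Z := Real.exp_pos _
      have hZ1 : Z ≤ M * Q := by
        rw [hZ, hM, hQw, ← Real.exp_add]
        apply Real.exp_le_exp.2
        linarith
      have eZ : (Real.exp (u - 4 * v)) ^ (p / 2) = Z := by
        rw [← Real.exp_mul, hZ]
        congr 1
        ring
      have hdec : Np p n (fun j => phi (a j)) = Np p n (fun j => (phi (a j) - phi (a1 j)) +
          (phi (b (n + j)) - A (n + j)) + A (n + j)) := by
        refine Np_congr fun j hj => ?_
        rw [hb2 j hj]
        ring
      rw [hdec]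
      refine (Np_add3 hp0 hp2 n _ _ _).trans ?_
      have t1 : Np p n (fun j => phi (a j) - phi (a1 j)) ≤ Z := by
        rw [← eZ]
        refine Np_le hp0 hp2 n _ _ (Real.exp_pos _) (le_trans ?_ hg4')
        refine Finset.sum_le_sum fun j _ => ?_
        exact pow_le_pow_left₀ (norm_nonneg _) (l1 _ _) 2
      have t2 : Np p n (fun j => phi (b (n + j)) - A (n + j)) ≤ (1 + q2) * Z := by
        have hsum : ∑ j ∈ range (n + 1), ‖phi (b (n + j)) - A (n + j)‖ ^ 2 ≤
            q2 * Real.exp (u - 4 * v) := by
          have hE : C0 * m / 2 ^ r ≤ 4 * C0 / δ * Real.exp (-(2 * v)) := by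
            have h1 : C0 * m / 2 ^ r = C0 * m * (1 / 2 ^ r) := by ring
            have h2 : C0 * m * (1 / 2 ^ r) ≤ C0 * m * (2 / (δ * u)) :=
              mul_le_mul_of_nonneg_left hr1 (by positivity)
            have h3 : C0 * m * (2 / (δ * u)) = 4 * C0 / δ * (Real.exp (t * v) / u) := by
              rw [hm]
              field_simp
              ring
            have h4 : Real.exp (t * v) / u = Real.exp (-(2 * v)) := by
              rw [huv, ← Real.exp_sub]
              congr 1
              ring
            rw [h1]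
            rw [h3, h4] at h2
            exact h2
          have hE0 : 0 ≤ C0 * m / 2 ^ r := by positivity
          calc ∑ j ∈ range (n + 1), ‖phi (b (n + j)) - A (n + j)‖ ^ 2
              ≤ ∑ j ∈ range (n + 1), (4 * C0 / δ * Real.exp (-(2 * v))) ^ 2 := by
                refine Finset.sum_le_sum fun j hj => ?_
                have hj' : n + j ≤ 3 * n := by
                  have := Finset.mem_range.1 hj
                  omega
                exact pow_le_pow_left₀ (norm_nonneg _) ((hA1 (n + j) hj').trans hE) 2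
            _ = ((n : ℝ) + 1) * (4 * C0 / δ * Real.exp (-(2 * v))) ^ 2 := by simp
            _ ≤ (2 * n) * (4 * C0 / δ * Real.exp (-(2 * v))) ^ 2 :=
                mul_le_mul_of_nonneg_right h2n (by positivity)
            _ = q2 * Real.exp (u - 4 * v) := by
                have h5 : Real.exp (u - 4 * v) = n * (Real.exp (-(2 * v))) ^ 2 := by
                  rw [hnu, ← Real.exp_nat_mul, ← Real.exp_add]
                  congr 1
                  push_cast
                  ring
                rw [h5, hq2]
                ring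
        have h1 := Np_le hp0 hp2 n (fun j => phi (b (n + j)) - A (n + j))
          ((1 + q2) * Real.exp (u - 4 * v)) (by positivity) (hsum.trans (by
            have := Real.exp_pos (u - 4 * v)
            nlinarith))
        refine h1.trans ?_
        rw [Real.mul_rpow (by positivity) (Real.exp_pos _).le, eZ]
        refine mul_le_mul_of_nonneg_right ?_ hZ0.le
        calc (1 + q2) ^ (p / 2) ≤ (1 + q2) ^ (1 : ℝ) :=
              Real.rpow_le_rpow_of_exponent_le (by linarith) (by linarith)
          _ = 1 + q2 := Real.rpow_one _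
      have t3 : Np p n (fun j => A (n + j)) ≤ q3 * Z := by
        have hAD : ∀ j ≤ n, ‖A (n + j)‖ ≤ D := by
          intro j hj
          exact (coef_le (3 * n) A (n + j) (by omega)).trans hA2
        have h1 := hINT p D n A hp1 hD0.le hAD
        have h2 := hALG (3 * n) (fun j => if n ≤ j ∧ j ≤ 2 * n then 1 else 0) A
        have h3 := hdir n (by omega)
        have h4 : N1 (3 * n) (fun j => (if n ≤ j ∧ j ≤ 2 * n then 1 else 0) * A j) ≤
            CD * (1 + u) * D :=
          h2.trans (mul_le_mul h3 hA2 (N1_nonneg _ _) (by positivity))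
        have h5 : ((n : ℝ) + 1) * D ≤ 2 * n * D := mul_le_mul_of_nonneg_right h2n hD0.le
        have h6 : (((n : ℝ) + 1) * D) ^ (p - 1) ≤ (2 * n * D) ^ (p - 1) :=
          Real.rpow_le_rpow (by positivity) h5 hp1'.le
        have hD1 : D ≤ 81 * Real.exp (3 * δ * u) := by
          rw [hD]; linarith
        have h7 : Np p n (fun j => A (n + j)) ≤ (2 * n * D) ^ (p - 1) * (CD * (1 + u) * D) :=
          h1.trans (mul_le_mul h6 h4 (N1_nonneg _ _) (by positivity))
        refine h7.trans ?_
        have h8 : (2 * n * D) ^ (p - 1) * (CD * (1 + u) * D) =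
            CD * (1 + u) * ((2 * n) ^ (p - 1) * D ^ p) := by
          rw [Real.mul_rpow (by positivity) hD0.le]
          have : D ^ p = D ^ (p - 1) * D := by
            rw [← Real.rpow_add_one hD0.ne']
            congr 1
            ring
          rw [this]
          ring
        rw [h8]
        have h9 : (2 * (n : ℝ)) ^ (p - 1) ≤ 2 * Real.exp ((p - 1) * u) := by
          rw [Real.mul_rpow (by norm_num) hn0.le]
          have a1 : (2 : ℝ) ^ (p - 1) ≤ 2 := by
            calc (2 : ℝ) ^ (p - 1) ≤ 2 ^ (1 : ℝ) :=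
                  Real.rpow_le_rpow_of_exponent_le (by norm_num) (by linarith)
              _ = 2 := by norm_num
          have a2 : (n : ℝ) ^ (p - 1) = Real.exp ((p - 1) * u) := by
            rw [hnu, ← Real.exp_mul]
            congr 1
            ring
          rw [a2]
          exact mul_le_mul_of_nonneg_right a1 (Real.exp_pos _).le
        have h10 : D ^ p ≤ 6561 * Real.exp (3 * δ * p * u) := by
          refine (Real.rpow_le_rpow hD0.le hD1 hp0.le).trans ?_
          rw [Real.mul_rpow (by norm_num) (Real.exp_pos _).le]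
          have a1 : (81 : ℝ) ^ p ≤ 6561 := by
            calc (81 : ℝ) ^ p ≤ 81 ^ (2 : ℝ) :=
                  Real.rpow_le_rpow_of_exponent_le (by norm_num) hp2.le
              _ = 6561 := by norm_num
          have a2 : (Real.exp (3 * δ * u)) ^ p = Real.exp (3 * δ * p * u) := by
            rw [← Real.exp_mul]
            congr 1
            ring
          rw [a2]
          exact mul_le_mul_of_nonneg_right a1 (Real.exp_pos _).le
        have h11 : 1 + u ≤ 2 * Real.exp (Real.log u) := by
          rw [Real.exp_log hu0]; linarith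
        have h12 : CD * (1 + u) * ((2 * (n : ℝ)) ^ (p - 1) * D ^ p) ≤
            CD * (2 * Real.exp (Real.log u)) * ((2 * Real.exp ((p - 1) * u)) *
              (6561 * Real.exp (3 * δ * p * u))) := by
          apply mul_le_mul
          · exact mul_le_mul_of_nonneg_left h11 hCD.le
          · exact mul_le_mul h9 h10 (by positivity) (by positivity)
          · positivity
          · positivity
        refine h12.trans ?_
        have h13 : CD * (2 * Real.exp (Real.log u)) * ((2 * Real.exp ((p - 1) * u)) *
              (6561 * Real.exp (3 * δ * p * u))) = 26244 * CD *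
            Real.exp (Real.log u + (p - 1) * u + 3 * δ * p * u) := by
          rw [Real.exp_add, Real.exp_add]
          ring
        rw [h13, hq3, hZ, mul_assoc (26244 * CD), ← Real.exp_add]
        apply mul_le_mul_of_nonneg_left _ (by positivity)
        apply Real.exp_le_exp.2
        have h14 : 3 * δ * p = (2 - p) / 4 := by
          rw [hδ]; field_simp; ring
        rw [h14]
        have h15 := hc2' u hu0
        have h16 : 2 * p * v ≤ 2 * p * Real.log u := mul_le_mul_of_nonneg_left hvl (by positivity)
        nlinarith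
      have hfin : 9 * (Np p n (fun j => phi (a j) - phi (a1 j)) +
          Np p n (fun j => phi (b (n + j)) - A (n + j)) + Np p n (fun j => A (n + j))) ≤
          9 * (1 + (1 + q2) + q3) * Z := by linarith
      refine hfin.trans ?_
      exact mul_le_mul_of_nonneg_left hZ1 (by positivity)

end Pool.Agent.P8H70.TU
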