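import Pool.Agent.P8H70.TU.Est

/-!
# Project TU, assembly of the second stage: the theorem
-/

set_option autoImplicit false

open Complex MeasureTheory Polynomial Finset ComplexConjugate

namespace Pool.Agent.P8H70.TU

open Pool.Agent.P8H70.TR

/-- the bound for `1 < p < 2` -/
theorem upNC2 (hALG : S_ALG) (hCHP : S_CHP) (hLIP : S_LIP) (hJ1 : S_J1) (hJ2 : S_J2)
    (hTHR : S_THR) (hVAL : S_VAL) (hDIR : S_DIR) (hINT : S_INT) (p : ℝ) (hp1 : 1 < p)
    (hp2 : p < 2) : ∃ C b : ℝ, 0 < C ∧ 0 < b ∧ ∀ n : ℕ, 3 ≤ n →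
      NC p n ≤ ENNReal.ofReal (C * (n : ℝ) ^ (1 / p - 1 / 2) / (Real.log n) ^ b) := by
  obtain ⟨C, κ, hC, hκ, hest⟩ :=
    np_est hALG hCHP hLIP hJ1 hJ2 hTHR hVAL hDIR hINT p hp1 hp2
  have hp0 : 0 < p := by linarith
  refine ⟨C ^ (1 / p), κ / p, by positivity, by positivity, fun n hn => ?_⟩
  have hnR : (3 : ℝ) ≤ n := by exact_mod_cast hn
  have hn0 : (0 : ℝ) < n := by linarith
  have hu1 : 1 ≤ Real.log n := by
    rw [Real.le_log_iff_exp_le hn0]
    have := Real.exp_one_lt_d9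
    linarith
  have hu0 : 0 < Real.log n := by linarith
  have hpi : 0 < 2 * Real.pi := by positivity
  unfold NC
  refine iSup₂_le fun P hP => ENNReal.ofReal_le_ofReal ?_
  have hdeg : P.natDegree ≤ n := hP.1
  have e1 : Ip p P = 2 * Real.pi * Np p n P.coeff := by
    unfold Ip Np
    rw [← mul_assoc, mul_inv_cancel₀ hpi.ne', one_mul]
    refine intervalIntegral.integral_congr fun t _ => ?_
    show ‖P.eval (cexp (t * I))‖ ^ p = _
    rw [eval_eq_tp n P hdeg t]
  have e2 : Ip p (trunc P) = 2 * Real.pi * Np p n (fun j => phi (P.coeff j)) := by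
    unfold Ip Np
    rw [← mul_assoc, mul_inv_cancel₀ hpi.ne', one_mul]
    refine intervalIntegral.integral_congr fun t _ => ?_
    show ‖(trunc P).eval (cexp (t * I))‖ ^ p = _
    rw [trunc_eq_tp n P hdeg t]
  have hrhs : 0 ≤ C ^ (1 / p) * (n : ℝ) ^ (1 / p - 1 / 2) / (Real.log n) ^ (κ / p) := by
    positivity
  rcases (Np_nonneg p n P.coeff).eq_or_lt with h0 | h0
  · have h3 : Pool.Agent.P8H70.TR.Lp p P = 0 := by
      unfold Pool.Agent.P8H70.TR.Lp
      rw [e1, ← h0, mul_zero, Real.zero_rpow (by positivity)]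
    rw [h3, div_zero]
    exact hrhs
  · have h1 := hest n hn P.coeff h0
    have hN0 := Np_nonneg p n (fun j => phi (P.coeff j))
    unfold Pool.Agent.P8H70.TR.Lp
    rw [e1, e2, ← Real.div_rpow (by positivity) (by positivity), mul_div_mul_left _ _ hpi.ne']
    have h2 : Np p n (fun j => phi (P.coeff j)) / Np p n P.coeff ≤
        C * Real.exp ((1 - p / 2) * Real.log n - κ * Real.log (Real.log n)) := by
      rw [div_le_iff₀ h0]
      exact h1
    refine (Real.rpow_le_rpow (by positivity) h2 (by positivity)).trans (le_of_eq ?_)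
    rw [Real.mul_rpow hC.le (Real.exp_pos _).le, mul_div_assoc]
    congr 1
    rw [← Real.exp_mul, Real.rpow_def_of_pos hn0, Real.rpow_def_of_pos hu0, ← Real.exp_sub]
    congr 1
    field_simp

end Pool.Agent.P8H70.TU
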