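import Mathlib.RingTheory.Polynomial.Chebyshev
import Pool.Agent.P8H70.TR.Pol

/-!
# Project TU: the norm of the truncation operator for `p ≤ 1` is smaller than `n^(1/p-1/2)` by `log n`

THEOREM. For `0 < p ≤ 1` there is a `C` with `N^comp_{n,p} ≤ C n^(1/p-1/2) / log n` for `n ≥ 3`.

Proof. Let `N1 n b = (1/2π) ∫ |∑ b_j e^{ijt}|`. It is submultiplicative for the pointwise product of the
coefficients (ALG). Let `m = N1 n a > 1`, so `|a_j| ≤ m`; `x_j = Re a_j / m`, `y_j = Im a_j / m`. The function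
`F(s, t) = φ(m cos s + i m cos t)`, `φ` the radial truncation, is `m`-Lipschitz in each variable (LIP), even, periodic,
so it is approximated with the error `C m / 2^r` by a trigonometric polynomial of degree `2^r` with bounded coefficients
(J1, J2), where only terms `cos(k s) cos(l t)` with `k + l` odd are needed since `φ` is odd. So
`φ(a_j) = ∑ c_{kl} T_k(x_j) T_l(y_j) + O(m / 2^r)`; the first part has `N1` at most `4 · 3^(4·2^r)` (CHP), the second one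
at most `sqrt(n+1) C m / 2^r` (Parseval). Take `2^r` about `log n / 20`. The case `p < 1` follows (RED).

Every `S_XXX` is the exact statement of a package; all are independent. Deliver `theorem xxx : S_XXX`.
-/

set_option autoImplicit false

open Complex MeasureTheory Polynomial Finset ComplexConjugate

namespace Pool.Agent.P8H70.TU

open Pool.Agent.P8H70.TR (tp phi trunc Lp Ip)

/-- the normalised `L_1` norm of the trigonometric polynomial with the coefficients `b` -/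
noncomputable def N1 (n : ℕ) (b : ℕ → ℂ) : ℝ :=
  (2 * Real.pi)⁻¹ * ∫ t in (0 : ℝ)..(2 * Real.pi), ‖tp n b t‖

/-- the cosine coefficients -/
noncomputable def fh (f : ℝ → ℂ) (k : ℤ) : ℂ :=
  ((2 * Real.pi)⁻¹ : ℝ) * ∫ u in (0 : ℝ)..(2 * Real.pi), f u * (Real.cos (k * u) : ℂ)

/-- ALG (60 lines). `tp n (b c) t = (1/2π) ∫ tp n b s * tp n c (t - s) ds` (orthogonality of the
exponentials, `Pool.Agent.P8H70.TR.int_exp`), Fubini and translation invariance. -/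
def S_ALG : Prop := ∀ (n : ℕ) (b c : ℕ → ℂ), N1 n (fun j => b j * c j) ≤ N1 n b * N1 n c

/-- CHP (100 lines). `T_a = ∑ t_l X^l` with `∑ |t_l| ≤ 3^a` (recurrence `T_(a+2) = 2 X T_(a+1) - T_a`) and
`t_0 = 0` for odd `a` (`T_a(0) = 0`). Expand the product: `∑ t_l t'_m x^l y^m`, and `l + m ≥ 1` in the terms which are
not zero as `a` or `b` is odd; `N1 n (x^l y^m) ≤ 1` for `l + m ≥ 1` by ALG; `N1` is subadditive and homogeneous. -/
def S_CHP : Prop := S_ALG → ∀ (n : ℕ) (x y : ℕ → ℂ), N1 n x ≤ 1 → N1 n y ≤ 1 → ∀ a b : ℕ,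
  Odd (a + b) → N1 n (fun j => (Polynomial.Chebyshev.T ℂ a).eval (x j) *
    (Polynomial.Chebyshev.T ℂ b).eval (y j)) ≤ 3 ^ (a + b)

/-- LIP (50 lines). `phi` is the nearest point map onto the closed unit disc, so it is nonexpansive. E.g.
by cases: both in the disc; for `|z| ≥ 1` the point `phi z = z / |z|` satisfies `⟨z - phi z, w - phi z⟩ ≤ 0` for
`|w| ≤ 1`, so `|phi z - phi w|² ≤ ⟨z - w, phi z - phi w⟩`. Also `phi` is odd and `|phi z| ≤ 1`. -/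
def S_LIP : Prop := (∀ z w : ℂ, ‖phi z - phi w‖ ≤ ‖z - w‖) ∧ (∀ z : ℂ, phi (-z) = -phi z) ∧
  (∀ z : ℂ, ‖phi z‖ ≤ 1) ∧ ∀ z : ℂ, ‖z‖ ≤ 1 → phi z = z

/-- J1 (130 lines). Jackson: the library has the kernels, `H506W.KER_proof : S_KER`
(`Pool.Agent.H506R3.LW.KER`), `K : H506W.Ker 1`: `K.rho s ≥ 0`, a trigonometric polynomial of degree `2^s` with the
coefficients `K.b s k`, `∫ rho = 1`, `∫ rho(u) dd(u) ≤ C 2^(-s)` over `T1` (normalised on `[0, 2π)`). Let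
`(J f)(x) = ∫ f(x - u) rho(u) dT1(u) = ∑_k b_k e^{-ikx} ∫ f(w) e^{ikw} dT1(w)`; as `f` is even the last integral is
`fh f k`, and the mean of `(J f)(x)` and `(J f)(-x)` is `∑ b_k fh f k cos(k x)`. `|b_k| = |∫ rho(u) e^{iku}| ≤ 1`; put
`b_k = 0` outside of the range. `|f(x - u) - f(x)| ≤ Λ dd(u)` for `u ∈ [0, 2π)` by periodicity. -/
def S_J1 : Prop := ∃ C : ℝ, 0 < C ∧ ∀ s : ℕ, ∃ b : ℤ → ℂ, (∀ k, ‖b k‖ ≤ 1) ∧
  (∀ (f : ℝ → ℂ) (B : ℝ), Continuous f → (∀ x, f (x + 2 * Real.pi) = f x) → (∀ x, f (-x) = f x) →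
    (∀ x, ‖f x‖ ≤ B) → ∀ x : ℝ,
    ‖∑ k ∈ Finset.Icc (-(2 : ℤ) ^ s) (2 ^ s), b k * fh f k * (Real.cos (k * x) : ℂ)‖ ≤ B) ∧
  ∀ (f : ℝ → ℂ) (L : ℝ), (∀ x y, ‖f x - f y‖ ≤ L * |x - y|) → (∀ x, f (x + 2 * Real.pi) = f x) →
    (∀ x, f (-x) = f x) → ∀ x : ℝ,
    ‖f x - ∑ k ∈ Finset.Icc (-(2 : ℤ) ^ s) (2 ^ s), b k * fh f k * (Real.cos (k * x) : ℂ)‖ ≤
      C * L / 2 ^ s

/-- J2 (120 lines). Apply J1 in the first variable: `H_σ(τ) = ∑_k b_k fh (F(·, τ)) k cos(kσ)` is close to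
`F(σ, τ)`. For fixed `σ` the function `H_σ` is `L`-Lipschitz (the contraction clause of J1 for
`F(·, τ) - F(·, τ')`), even and periodic; J1 again: `H_σ(τ)` is close to `∑_l b_l fh H_σ l cos(lτ)`, and
`fh H_σ l = ∑_k b_k (fh (v ↦ fh (F(·, v)) k) l) cos(kσ)`. So `|F - ∑_k ∑_l b_k b_l F_{kl} cos(kσ) cos(lτ)| ≤ 2 C L / 2^s`
with `|F_{kl}| ≤ B`; group `k, -k` and `l, -l`: coefficients of modulus at most `4 B`. -/
def S_J2 : Prop := S_J1 → ∃ C : ℝ, 0 < C ∧ ∀ (s : ℕ) (F : ℝ → ℝ → ℂ) (L B : ℝ),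
  (∀ x x' y, ‖F x y - F x' y‖ ≤ L * |x - x'|) → (∀ x y y', ‖F x y - F x y'‖ ≤ L * |y - y'|) →
  (∀ x y, F (x + 2 * Real.pi) y = F x y) → (∀ x y, F x (y + 2 * Real.pi) = F x y) →
  (∀ x y, F (-x) y = F x y) → (∀ x y, F x (-y) = F x y) → (∀ x y, ‖F x y‖ ≤ B) →
  ∃ c : ℕ → ℕ → ℂ, (∀ a b, ‖c a b‖ ≤ 4 * B) ∧
    ∀ x y : ℝ, ‖F x y - ∑ a ∈ range (2 ^ s + 1), ∑ b ∈ range (2 ^ s + 1),
      c a b * (Real.cos (a * x) : ℂ) * (Real.cos (b * y) : ℂ)‖ ≤ C * L / 2 ^ s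

/-- RED (80 lines). With the normalised norms (`dt / 2π`): `‖trunc P‖_p ≤ ‖trunc P‖_1 ≤ K ‖P‖_1` (Jensen,
`Real.rpow_one_add_le_one_add_mul_self`-type inequality as in `Pool.Agent.P8H70.TR.nik`), and `‖P‖_∞ ≤ (n + 1) ‖P‖_1`
(each coefficient is at most `‖P‖_1`), so `‖P‖_1 ≤ ‖P‖_∞^(1-p) ‖P‖_p^p ≤ ((n+1) ‖P‖_1)^(1-p) ‖P‖_p^p`, hence
`‖P‖_1 ≤ (n+1)^(1/p-1) ‖P‖_p`. -/
def S_RED : Prop := ∀ (p : ℝ), 0 < p → p ≤ 1 → ∀ (n : ℕ) (K : ℝ), 0 ≤ K →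
  (∀ P : ℂ[X], P.natDegree ≤ n → Lp 1 (trunc P) ≤ K * Lp 1 P) →
  ∀ P : ℂ[X], P.natDegree ≤ n → Lp p (trunc P) ≤ K * ((n : ℝ) + 1) ^ (1 / p - 1) * Lp p P

end Pool.Agent.P8H70.TU
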